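import Pool.Agent.R737.PK.Stm

/-!
# Peak polynomials with only real roots: PIECE ADM
-/

set_option autoImplicit false

namespace Pool.Agent.R737.PK

theorem stAdm : StAdm := by
  constructor
  · intro S n h i hi
    have hne : Nonempty {π : Equiv.Perm (Fin n) // ∀ i : ℕ, IsPeak π i ↔ i ∈ S} := by
      by_contra hn
      rw [not_nonempty_iff] at hn
      exact h Nat.card_of_isEmpty
    obtain ⟨π, hπ⟩ := hne
    obtain ⟨h1, h2, h3, h4⟩ := (hπ i).2 hi
    refine ⟨h1, h2, fun h5 => ?_⟩
    obtain ⟨k1, k2, k3, k4⟩ := (hπ (i + 1)).2 h5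
    have e1 : (⟨i + 1 - 2, by omega⟩ : Fin n) = ⟨i - 1, by omega⟩ := by
      apply Fin.ext
      change i + 1 - 2 = i - 1
      omega
    have e2 : (⟨i + 1 - 1, by omega⟩ : Fin n) = ⟨i, h2⟩ := by
      apply Fin.ext
      change i + 1 - 1 = i
      omega
    rw [e1, e2] at k3
    exact lt_asymm k3 h4
  · intro S hS
    refine ⟨S.sort (fun a b => b ≤ a), ⟨?_, ?_⟩, ?_⟩
    · have hs : (S.sort (fun a b => b ≤ a)).Pairwise (fun a b => b ≤ a) :=
        Finset.pairwise_sort S _
      have hn : (S.sort (fun a b => b ≤ a)).Nodup := Finset.sort_nodup S _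
      have hn' : (S.sort (fun a b => b ≤ a)).Pairwise (fun a b => a ≠ b) := hn
      have hmem : ∀ a ∈ S.sort (fun a b => b ≤ a), a ∈ S := fun a ha => (Finset.mem_sort _).1 ha
      have hboth := hs.and hn'
      refine List.Pairwise.imp_of_mem ?_ hboth
      intro a b ha hb hab
      have h1 := hab.1
      have h2 := hab.2
      have h3 := (hS b (hmem b hb)).2
      by_contra hlt
      have : a = b + 1 := by omega
      rw [← this] at h3
      exact h3 (hmem a ha)
    · intro a ha
      exact (hS a ((Finset.mem_sort _).1 ha)).1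
    · exact Finset.sort_toFinset _ _

end Pool.Agent.R737.PK
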