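import Pool.Agent.R737.PK.Stm

/-!
PIECE BZ (MP_8cb80e_co): no zeros in `(j₀ - 3, j₀ - 1)` after a gap at least four. helper710.
-/

set_option autoImplicit false

open Polynomial MeasureTheory

namespace Pool.Agent.R737.PK

namespace BZ

theorem binX_eval (n : ℕ) (x : ℝ) :
    (binX n).eval x = (∏ i ∈ Finset.range n, (x - i)) / (n.factorial : ℝ) := by
  unfold binX
  rw [eval_mul, eval_C, eval_prod, div_eq_inv_mul]
  simp only [eval_sub, eval_X, eval_C]

theorem binX_two (n : ℕ) (x : ℝ) :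
    (binX (n + 2)).eval x = (binX n).eval x * ((x - n) * (x - n - 1)) / (((n : ℝ) + 1) * (n + 2)) := by
  rw [binX_eval, binX_eval, Finset.prod_range_succ, Finset.prod_range_succ, Nat.factorial_succ,
    Nat.factorial_succ]
  have h : (n.factorial : ℝ) ≠ 0 := by exact_mod_cast n.factorial_ne_zero
  push_cast
  have h1 : (n : ℝ) + 1 ≠ 0 := by positivity
  have h2 : (n : ℝ) + 2 ≠ 0 := by positivity
  have h3 : (n : ℝ) + 1 + 1 ≠ 0 := by positivity
  field_simp
  ring

theorem prod_shift (j : ℕ) (y : ℝ) :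
    ∏ i ∈ Finset.range (j + 1), ((j : ℝ) - y - i) = (-y) * ∏ i ∈ Finset.range j, (-y + i + 1) := by
  rw [← Finset.prod_range_reflect, Finset.prod_range_succ']
  rw [mul_comm]
  congr 1
  · simp
  · refine Finset.prod_congr rfl fun i hi => ?_
    rw [Finset.mem_range] at hi
    have : j + 1 - 1 - (i + 1) = j - (i + 1) := by omega
    rw [this, Nat.cast_sub (by omega)]
    push_cast
    ring

theorem deriv_anti (f : ℝ[X]) : derivative (anti f) = f := by
  unfold anti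
  rw [Polynomial.sum_def, derivative_sum]
  conv_rhs => rw [← Polynomial.sum_monomial_eq f, Polynomial.sum_def]
  refine Finset.sum_congr rfl fun l _ => ?_
  rw [derivative_monomial]
  have h : (l : ℝ) + 1 ≠ 0 := by positivity
  rw [Nat.add_sub_cancel]
  congr 1
  push_cast
  field_simp

theorem deriv_J (f : ℝ[X]) : derivative (J f) = -f := by
  unfold J
  rw [derivative_sub, derivative_C, deriv_anti, zero_sub]

theorem J_one (f : ℝ[X]) : (J f).eval 1 = 0 := by
  unfold J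
  rw [eval_sub, eval_C, sub_self]

theorem rho_mono {ρ : ℝ[X]} (h : Good ρ) : MonotoneOn (fun s => ρ.eval s) (Set.Icc 0 1) := by
  apply monotoneOn_of_deriv_nonneg (convex_Icc 0 1) ρ.continuous.continuousOn
    ρ.differentiable.differentiableOn
  intro s hs
  rw [interior_Icc] at hs
  rw [Polynomial.deriv]
  exact h.mono s hs.1.le hs.2.le

theorem rho_half {ρ : ℝ[X]} (h : Good ρ) : ρ.eval (1 / 2) = 0 := by
  have := h.anti (1 / 2)
  norm_num at this
  linarith

theorem rho_zero {ρ : ℝ[X]} (h : Good ρ) : ρ.eval 0 = - ρ.eval 1 := by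
  have := h.anti 1
  rw [sub_self] at this
  exact this

/-- the lower bound by a line -/
theorem rho_lower {ρ : ℝ[X]} (h : Base ρ) (s : ℝ) (h0 : 0 ≤ s) (h1 : s ≤ 1) :
    ρ.eval 1 * s ≤ ρ.eval s + ρ.eval 1 := by
  have ha := h.good.pos
  by_cases hs : s ≤ 1 / 2
  · have h2 := h.convex (1 - s) (by linarith) (by linarith)
    rw [h.good.anti s] at h2
    nlinarith
  · push Not at hs
    have h3 := rho_mono h.good (show (1 / 2 : ℝ) ∈ Set.Icc (0 : ℝ) 1 by constructor <;> norm_num)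
      (show s ∈ Set.Icc (0 : ℝ) 1 from ⟨h0, h1⟩) hs.le
    simp only [rho_half h.good] at h3
    nlinarith

/-- the upper bound of `σ` -/
theorem sig_le {ρ : ℝ[X]} (h : Base ρ) (s : ℝ) (h0 : 0 ≤ s) (h1 : s ≤ 1) :
    (J ρ).eval s ≤ ρ.eval 1 * (s - s ^ 2) := by
  have key : ∀ t : ℝ, 1 / 2 ≤ t → t ≤ 1 → (J ρ).eval t ≤ ρ.eval 1 * (t - t ^ 2) := by
    intro t ht0 ht1
    set G : ℝ[X] := C (ρ.eval 1) * (X - X ^ 2) - J ρ with hG
    have hGd : derivative G = C (ρ.eval 1) * (1 - C 2 * X) + ρ := by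
      rw [hG, derivative_sub, derivative_C_mul, derivative_sub, derivative_X, derivative_X_pow,
        deriv_J]
      simp
    have hanti : AntitoneOn (fun s => G.eval s) (Set.Icc (1 / 2) 1) := by
      apply antitoneOn_of_deriv_nonpos (convex_Icc _ _) G.continuous.continuousOn
        G.differentiable.differentiableOn
      intro u hu
      rw [interior_Icc] at hu
      rw [Polynomial.deriv, hGd]
      have := h.convex u hu.1.le hu.2.le
      simp only [eval_add, eval_mul, eval_C, eval_sub, eval_one, eval_X]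
      linarith
    have h2 := hanti (show t ∈ Set.Icc (1 / 2 : ℝ) 1 from ⟨ht0, ht1⟩)
      (show (1 : ℝ) ∈ Set.Icc (1 / 2 : ℝ) 1 by constructor <;> norm_num) ht1
    simp only [hG, eval_sub, eval_mul, eval_C, eval_X, eval_pow, J_one] at h2
    linarith
  have hsym : ∀ t : ℝ, (J ρ).eval (1 - t) = (J ρ).eval t := by
    intro t
    set D : ℝ[X] := (J ρ).comp (1 - X) - J ρ with hD
    have hDd : derivative D = 0 := by
      apply Polynomial.funext
      intro u
      rw [hD, derivative_sub, derivative_comp, deriv_J]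
      simp only [derivative_sub, derivative_one, derivative_X, zero_sub, eval_sub, eval_mul,
        eval_neg, eval_one, eval_comp, eval_X, eval_zero, neg_comp]
      have := h.good.anti u
      rw [this]
      ring
    have hconst := Polynomial.derivative_eq_zero.1 hDd
    rw [Polynomial.natDegree_eq_zero] at hconst
    obtain ⟨c, hc⟩ := hconst
    have hhalf : D.eval (1 / 2) = 0 := by
      rw [hD, eval_sub, eval_comp, eval_sub, eval_one, eval_X]
      norm_num
    rw [← hc, eval_C] at hhalf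
    have : D.eval t = 0 := by rw [← hc, eval_C, hhalf]
    rw [hD, eval_sub, eval_comp, eval_sub, eval_one, eval_X] at this
    linarith
  by_cases hs : 1 / 2 ≤ s
  · exact key s hs h1
  · push Not at hs
    have := key (1 - s) (by linarith) (by linarith)
    rw [hsym] at this
    nlinarith

theorem M0_le {ρ : ℝ[X]} (h : Base ρ) : M ρ 0 ≤ ρ.eval 1 / 6 := by
  unfold M
  have h1 : ∫ y in (0 : ℝ)..1, ρ.eval 1 * (y - y ^ 2) = ρ.eval 1 / 6 := by
    rw [intervalIntegral.integral_const_mul, intervalIntegral.integral_sub]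
    · rw [integral_id, integral_pow]
      norm_num
      ring
    · exact continuous_id.intervalIntegrable _ _
    · exact (continuous_pow 2).intervalIntegrable _ _
  rw [← h1]
  apply intervalIntegral.integral_mono_on zero_le_one
  · apply Continuous.intervalIntegrable
    exact (continuous_pow 0).mul (J ρ).continuous
  · apply Continuous.intervalIntegrable
    fun_prop
  · intro s hs
    rw [pow_zero, one_mul]
    exact sig_le h s hs.1 hs.2

theorem int_poly (q : ℝ[X]) (N : ℕ) (hN : q.natDegree < N) (c : ℝ) (hc : -1 < c) :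
    IntervalIntegrable (fun s : ℝ => s ^ c * q.eval s) volume 0 1 ∧
    ∫ s in (0 : ℝ)..1, s ^ c * q.eval s = ∑ l ∈ Finset.range N, q.coeff l / (l + c + 1) := by
  constructor
  · exact (intervalIntegral.intervalIntegrable_rpow' hc).mul_continuousOn
      q.continuous.continuousOn
  · have h1 : ∫ s in (0 : ℝ)..1, s ^ c * q.eval s =
        ∫ s in (0 : ℝ)..1, ∑ l ∈ Finset.range N, q.coeff l * s ^ (c + l) := by
      apply intervalIntegral.integral_congr_ae
      refine Filter.Eventually.of_forall fun s hs => ?_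
      rw [Set.uIoc_of_le zero_le_one] at hs
      rw [Polynomial.eval_eq_sum_range' hN, Finset.mul_sum]
      refine Finset.sum_congr rfl fun l _ => ?_
      rw [Real.rpow_add hs.1, Real.rpow_natCast]
      ring
    rw [h1, intervalIntegral.integral_finsetSum]
    · refine Finset.sum_congr rfl fun l _ => ?_
      have hl : (0 : ℝ) ≤ l := Nat.cast_nonneg l
      rw [intervalIntegral.integral_const_mul, integral_rpow (Or.inl (by linarith)),
        Real.one_rpow, Real.zero_rpow (by linarith), sub_zero]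
      rw [mul_one_div]
      congr 1
      ring
    · intro l _
      have hl : (0 : ℝ) ≤ l := Nat.cast_nonneg l
      exact (intervalIntegral.intervalIntegrable_rpow' (by linarith)).const_mul _

theorem coeff_zero_eq {ρ : ℝ[X]} (h : Good ρ) : ρ.coeff 0 = - ρ.eval 1 := by
  rw [← rho_zero h, Polynomial.coeff_zero_eq_eval_zero]

theorem coeff_one_eq (ρ : ℝ[X]) : ρ.coeff 1 = (derivative ρ).eval 0 := by
  rw [← Polynomial.coeff_zero_eq_eval_zero, Polynomial.coeff_derivative]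
  simp

theorem divX_eval (p : ℝ[X]) (s : ℝ) : p.eval s = s * (divX p).eval s + p.coeff 0 := by
  conv_lhs => rw [← Polynomial.divX_mul_X_add p]
  rw [eval_add, eval_mul, eval_X, eval_C]
  ring

/-- the sum of the partial fractions -/
noncomputable def hh (ρ : ℝ[X]) (m : ℕ) (y : ℝ) : ℝ :=
  ∑ l ∈ Finset.range m, ρ.coeff l / (l + 1 - y)

theorem hh_one {ρ : ℝ[X]} (h : Base ρ) (m : ℕ) (hm : 4 ≤ m) (hd : ρ.natDegree < m) (y : ℝ)
    (h1 : 1 < y) (h2 : y < 2) : 4 * ρ.eval 1 ≤ hh ρ m y := by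
  obtain ⟨N, rfl⟩ : ∃ N, m = N + 1 := ⟨m - 1, by omega⟩
  have ha := h.good.pos
  unfold hh
  rw [Finset.sum_range_succ']
  have hq : (divX ρ).natDegree < N := by
    rw [Polynomial.natDegree_divX_eq_natDegree_tsub_one]
    omega
  obtain ⟨hi, hs⟩ := int_poly (divX ρ) N hq (1 - y) (by linarith)
  have hsum : ∑ l ∈ Finset.range N, ρ.coeff (l + 1) / (((l + 1 : ℕ) : ℝ) + 1 - y) =
      ∫ s in (0 : ℝ)..1, s ^ (1 - y) * (divX ρ).eval s := by
    rw [hs]
    refine Finset.sum_congr rfl fun l _ => ?_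
    rw [Polynomial.coeff_divX]
    congr 1
    push_cast
    ring
  rw [hsum, coeff_zero_eq h.good]
  have hlow : ρ.eval 1 / (2 - y) ≤ ∫ s in (0 : ℝ)..1, s ^ (1 - y) * (divX ρ).eval s := by
    have h3 : ∫ s in (0 : ℝ)..1, s ^ (1 - y) * ρ.eval 1 = ρ.eval 1 / (2 - y) := by
      rw [intervalIntegral.integral_mul_const, integral_rpow (Or.inl (by linarith)),
        Real.one_rpow, Real.zero_rpow (by linarith), sub_zero]
      rw [show 1 - y + 1 = 2 - y by ring]
      field_simp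
    rw [← h3]
    apply intervalIntegral.integral_mono_on zero_le_one _ hi
    · intro s hs
      rcases eq_or_lt_of_le hs.1 with h0 | h0
      · rw [← h0, Real.zero_rpow (by linarith), zero_mul, zero_mul]
      · apply mul_le_mul_of_nonneg_left _ (Real.rpow_nonneg hs.1 _)
        have h4 := rho_lower h s hs.1 hs.2
        rw [divX_eval ρ s, coeff_zero_eq h.good] at h4
        have h5 : s * ρ.eval 1 ≤ s * (divX ρ).eval s := by linarith
        exact le_of_mul_le_mul_left h5 h0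
    · exact (intervalIntegral.intervalIntegrable_rpow' (by linarith)).mul_const _
  have h6 : 4 * ρ.eval 1 ≤ ρ.eval 1 / (2 - y) + -ρ.eval 1 / (((0 : ℕ) : ℝ) + 1 - y) := by
    have h7 : ρ.eval 1 / (2 - y) + -ρ.eval 1 / (((0 : ℕ) : ℝ) + 1 - y) =
        ρ.eval 1 / ((y - 1) * (2 - y)) := by
      push_cast
      have e1 : 2 - y ≠ 0 := by linarith
      have e2 : y - 1 ≠ 0 := by linarith
      have e3 : (0 : ℝ) + 1 - y ≠ 0 := by linarith
      rw [show (0 : ℝ) + 1 - y = -(y - 1) by ring, neg_div_neg_eq]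
      field_simp
      ring
    rw [h7, le_div_iff₀ (mul_pos (by linarith) (by linarith))]
    nlinarith [sq_nonneg (2 * y - 3)]
  linarith

theorem int_rho {ρ : ℝ[X]} (h : Good ρ) : ∫ s in (0 : ℝ)..1, ρ.eval s = 0 := by
  have h1 : ∫ s in (0 : ℝ)..1, ρ.eval (1 - s) = ∫ s in (0 : ℝ)..1, ρ.eval s := by
    rw [intervalIntegral.integral_comp_sub_left (fun s => ρ.eval s) 1]
    norm_num
  have h2 : ∫ s in (0 : ℝ)..1, ρ.eval (1 - s) = - ∫ s in (0 : ℝ)..1, ρ.eval s := by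
    rw [← intervalIntegral.integral_neg]
    apply intervalIntegral.integral_congr
    intro s _
    exact h.anti s
  linarith

theorem hh_two {ρ : ℝ[X]} (h : Base ρ) (m : ℕ) (hm : 4 ≤ m) (hd : ρ.natDegree < m) (y : ℝ)
    (h1 : 2 < y) (h2 : y < 3) : hh ρ m y ≤ -(5 / 2 * ρ.eval 1) := by
  obtain ⟨N, rfl⟩ : ∃ N, m = N + 1 + 1 := ⟨m - 2, by omega⟩
  have ha := h.good.pos
  unfold hh
  rw [Finset.sum_range_succ', Finset.sum_range_succ']
  have hq : (divX (divX ρ)).natDegree < N := by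
    rw [Polynomial.natDegree_divX_eq_natDegree_tsub_one,
      Polynomial.natDegree_divX_eq_natDegree_tsub_one]
    omega
  obtain ⟨hi, hs⟩ := int_poly (divX (divX ρ)) N hq (2 - y) (by linarith)
  have hsum : ∑ l ∈ Finset.range N, ρ.coeff (l + 1 + 1) / (((l + 1 + 1 : ℕ) : ℝ) + 1 - y) =
      ∫ s in (0 : ℝ)..1, s ^ (2 - y) * (divX (divX ρ)).eval s := by
    rw [hs]
    refine Finset.sum_congr rfl fun l _ => ?_
    rw [Polynomial.coeff_divX, Polynomial.coeff_divX]
    congr 1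
    push_cast
    ring
  rw [hsum, coeff_zero_eq h.good]
  have hev : ∀ s : ℝ, s ^ 2 * (divX (divX ρ)).eval s =
      ρ.eval s + ρ.eval 1 - (derivative ρ).eval 0 * s := by
    intro s
    have e1 := divX_eval ρ s
    have e2 := divX_eval (divX ρ) s
    rw [Polynomial.coeff_divX, zero_add, coeff_one_eq] at e2
    rw [coeff_zero_eq h.good] at e1
    rw [e1, e2]
    ring
  have hr : ∀ s : ℝ, 0 ≤ s → s ≤ 1 → ρ.eval s + ρ.eval 1 - (derivative ρ).eval 0 * s ≤ 0 := by
    intro s hs0 hs1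
    set G : ℝ[X] := C ((derivative ρ).eval 0) * X - ρ with hG
    have hGd : derivative G = C ((derivative ρ).eval 0) - derivative ρ := by
      rw [hG, derivative_sub, derivative_C_mul, derivative_X, mul_one]
    have hmono : MonotoneOn (fun s => G.eval s) (Set.Icc 0 1) := by
      apply monotoneOn_of_deriv_nonneg (convex_Icc _ _) G.continuous.continuousOn
        G.differentiable.differentiableOn
      intro u hu
      rw [interior_Icc] at hu
      rw [Polynomial.deriv, hGd, eval_sub, eval_C]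
      have := h.valley u hu.1.le hu.2.le
      linarith
    have h2 := hmono (show (0 : ℝ) ∈ Set.Icc (0 : ℝ) 1 by constructor <;> norm_num)
      (show s ∈ Set.Icc (0 : ℝ) 1 from ⟨hs0, hs1⟩) hs0
    simp only [hG, eval_sub, eval_mul, eval_C, eval_X, rho_zero h.good] at h2
    linarith
  have hup : ∫ s in (0 : ℝ)..1, s ^ (2 - y) * (divX (divX ρ)).eval s ≤
      ρ.eval 1 - (derivative ρ).eval 0 / 2 := by
    have h3 : ∫ s in (0 : ℝ)..1, s ^ 2 * (divX (divX ρ)).eval s =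
        ρ.eval 1 - (derivative ρ).eval 0 / 2 := by
      have h4 : ∫ s in (0 : ℝ)..1, s ^ 2 * (divX (divX ρ)).eval s =
          ∫ s in (0 : ℝ)..1, (ρ.eval s + ρ.eval 1 - (derivative ρ).eval 0 * s) := by
        apply intervalIntegral.integral_congr
        intro s _
        exact hev s
      rw [h4, intervalIntegral.integral_sub, intervalIntegral.integral_add, int_rho h.good,
        intervalIntegral.integral_const, intervalIntegral.integral_const_mul, integral_id]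
      · simp
        ring
      · exact ρ.continuous.intervalIntegrable _ _
      · exact continuous_const.intervalIntegrable _ _
      · exact (ρ.continuous.add continuous_const).intervalIntegrable _ _
      · exact (continuous_const.mul continuous_id).intervalIntegrable _ _
    rw [← h3]
    apply intervalIntegral.integral_mono_on zero_le_one hi
    · apply Continuous.intervalIntegrable
      exact (continuous_pow 2).mul (divX (divX ρ)).continuous
    · intro s hs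
      rcases eq_or_lt_of_le hs.1 with h0 | h0
      · rw [← h0, Real.zero_rpow (by linarith), zero_mul]
        norm_num
      · have h5 := hr s hs.1 hs.2
        rw [← hev s] at h5
        have h6 : (divX (divX ρ)).eval s ≤ 0 := by
          by_contra hc
          push Not at hc
          have := mul_pos (pow_pos h0 2) hc
          linarith
        have h7 : 1 ≤ s ^ (2 - y) :=
          Real.one_le_rpow_of_pos_of_le_one_of_nonpos h0 hs.2 (by linarith)
        have h8 : s ^ 2 ≤ 1 := by nlinarith [hs.1, hs.2]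
        exact mul_le_mul_of_nonpos_right (h8.trans h7) h6
  have hthree := h.three
  have h9 : ρ.coeff (0 + 1) / (((0 + 1 : ℕ) : ℝ) + 1 - y) ≤ -(derivative ρ).eval 0 := by
    rw [zero_add, coeff_one_eq]
    have e1 : ((1 : ℕ) : ℝ) + 1 - y = -(y - 2) := by push_cast; ring
    rw [e1, div_neg, neg_le_neg_iff, le_div_iff₀ (by linarith)]
    nlinarith
  have h10 : -ρ.eval 1 / (((0 : ℕ) : ℝ) + 1 - y) ≤ ρ.eval 1 := by
    have e1 : ((0 : ℕ) : ℝ) + 1 - y = -(y - 1) := by push_cast; ring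
    rw [e1, neg_div_neg_eq, div_le_iff₀ (by linarith)]
    nlinarith
  linarith

/-- the possible sums of the alternating terms -/
def Cases (t1 t2 t3 Θ : ℝ) : Prop :=
  Θ = 0 ∨ Θ = 1 ∨ Θ = 1 - t1 ∨ Θ = 1 - t1 + t1 * t2 ∨ Θ = 1 - t1 + t1 * t2 - t1 * t2 * t3

theorem prod_le (y Y c : ℝ) (h1 : 1 < y) (h2 : y ≤ Y) (hc : 0 ≤ c) :
    (y + c + 1) * (y + c) ≤ (Y + c + 1) * (Y + c) :=
  mul_le_mul (by linarith) (by linarith) (by linarith) (by linarith)

theorem tau_le (w c C y : ℝ) (hw : 0 < w) (hw1 : w ≤ 5 / 24) (hy : 1 < y) (hc : 0 ≤ c)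
    (h : (y + c + 1) * (y + c) ≤ C) :
    0 ≤ w / 2 * ((y + c + 1) * (y + c)) ∧ w / 2 * ((y + c + 1) * (y + c)) ≤ 5 / 48 * C := by
  have e2 : 0 ≤ (y + c + 1) * (y + c) := mul_nonneg (by linarith) (by linarith)
  constructor
  · exact mul_nonneg (by linarith) e2
  · have e3 : w / 2 ≤ 5 / 48 := by linarith
    exact mul_le_mul e3 h e2 (by norm_num)

theorem theta_lo (t1 t2 t3 Θ : ℝ) (h : Cases t1 t2 t3 Θ) (p1 : 0 ≤ t1) (p2 : 0 ≤ t2)
    (l1 : t1 ≤ 5 / 4) (l2 : t2 ≤ 25 / 8) (l3 : t3 ≤ 35 / 6) : -(96 / 5) ≤ Θ := by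
  have t12p : 0 ≤ t1 * t2 := mul_nonneg p1 p2
  have t12 : t1 * t2 ≤ 5 / 4 * (25 / 8) := mul_le_mul l1 l2 p2 (by norm_num)
  have t123 : t1 * t2 * (t3 - 1) ≤ 5 / 4 * (25 / 8) * (29 / 6) := by
    by_cases h3 : 0 ≤ t3 - 1
    · exact mul_le_mul t12 (by linarith) h3 (by norm_num)
    · push Not at h3
      have : t1 * t2 * (t3 - 1) ≤ 0 := mul_nonpos_of_nonneg_of_nonpos t12p h3.le
      linarith
  have e : t1 * t2 * (t3 - 1) = t1 * t2 * t3 - t1 * t2 := by ring
  rw [e] at t123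
  rcases h with h | h | h | h | h <;> rw [h] <;> linarith

theorem theta_up (t1 t2 t3 Θ : ℝ) (h : Cases t1 t2 t3 Θ) (p1 : 0 ≤ t1) (p2 : 0 ≤ t2)
    (p3 : 0 ≤ t3) (l1 : t1 ≤ 25 / 12) (l2 : t2 ≤ 35 / 8) : Θ ≤ 9 := by
  have t12p : 0 ≤ t1 * t2 := mul_nonneg p1 p2
  have t123p : 0 ≤ t1 * t2 * t3 := mul_nonneg t12p p3
  have t12 : t1 * (t2 - 1) ≤ 25 / 12 * (27 / 8) := by
    by_cases h3 : 0 ≤ t2 - 1
    · exact mul_le_mul l1 (by linarith) h3 (by norm_num)
    · push Not at h3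
      have : t1 * (t2 - 1) ≤ 0 := mul_nonpos_of_nonneg_of_nonpos p1 h3.le
      linarith
  have e : t1 * (t2 - 1) = t1 * t2 - t1 := by ring
  rw [e] at t12
  rcases h with h | h | h | h | h <;> rw [h] <;> linarith

theorem fin_one (y a M0 h Θ : ℝ) (hy : 1 < y) (hy2 : y < 2) (hM : 0 < M0) (hMa : M0 ≤ a / 6)
    (hh : 4 * a ≤ h) (hΘ : -(96 / 5) ≤ Θ) : 0 < h + y / 2 * M0 * Θ := by
  have e1 : -(96 / 5) * M0 ≤ y / 2 * M0 * Θ := by
    have e3 : 0 ≤ y / 2 * M0 := mul_nonneg (by linarith) hM.le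
    by_cases hΘ0 : 0 ≤ Θ
    · have : 0 ≤ y / 2 * M0 * Θ := mul_nonneg e3 hΘ0
      linarith
    · have e4 : y / 2 * M0 ≤ 1 * M0 := mul_le_mul_of_nonneg_right (by linarith) hM.le
      have e5 : y / 2 * M0 * -(96 / 5) ≤ y / 2 * M0 * Θ := mul_le_mul_of_nonneg_left hΘ e3
      linarith
  linarith

theorem fin_two (y a M0 h Θ : ℝ) (hy : 2 < y) (hy2 : y < 3) (hM : 0 < M0) (hMa : M0 ≤ a / 6)
    (hh : h ≤ -(5 / 2 * a)) (hΘ : Θ ≤ 9) : h + y / 2 * M0 * Θ < 0 := by
  have e1 : y / 2 * M0 * Θ ≤ 27 / 2 * M0 := by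
    have e3 : 0 ≤ y / 2 * M0 := mul_nonneg (by linarith) hM.le
    have e4 : y / 2 * M0 ≤ 3 / 2 * M0 := mul_le_mul_of_nonneg_right (by linarith) hM.le
    have e5 : y / 2 * M0 * Θ ≤ y / 2 * M0 * 9 := mul_le_mul_of_nonneg_left hΘ e3
    linarith
  linarith

theorem stBz_fin (y a M0 hv B w0 w1 w2 : ℝ) (D T : ℕ → ℝ) (k : ℕ) (hk : k ≤ 4) (hB0 : B ≠ 0)
    (hy1 : 1 < y) (hy3 : y < 3) (hy2 : y ≠ 2) (hM : 0 < M0) (hMa : M0 ≤ a / 6)
    (hw0 : 0 < w0 ∧ w0 ≤ 5 / 24) (hw1 : 0 < w1 ∧ w1 ≤ 5 / 24) (hw2 : 0 < w2 ∧ w2 ≤ 5 / 24)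
    (hD0 : D 0 = B * hv) (hT0 : T 0 = B * (y / 2 * M0))
    (hT1 : T 1 = -(w0 / 2 * ((y + 1 + 1) * (y + 1))) * T 0)
    (hT2 : T 2 = -(w1 / 2 * ((y + 3 + 1) * (y + 3))) * T 1)
    (hT3 : T 3 = -(w2 / 2 * ((y + 5 + 1) * (y + 5))) * T 2)
    (d1 : D 1 = D 0 + T 0) (d2 : D 2 = D 1 + T 1) (d3 : D 3 = D 2 + T 2) (d4 : D 4 = D 3 + T 3)
    (hone : y < 2 → 4 * a ≤ hv) (htwo : 2 < y → hv ≤ -(5 / 2 * a)) : D k ≠ 0 := by
  set t1 : ℝ := w0 / 2 * ((y + 1 + 1) * (y + 1)) with ht1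
  set t2 : ℝ := w1 / 2 * ((y + 3 + 1) * (y + 3)) with ht2
  set t3 : ℝ := w2 / 2 * ((y + 5 + 1) * (y + 5)) with ht3
  have hDk : ∃ Θ : ℝ, D k = B * (hv + y / 2 * M0 * Θ) ∧ Cases t1 t2 t3 Θ := by
    interval_cases k
    · exact ⟨0, by rw [hD0]; ring, Or.inl rfl⟩
    · exact ⟨1, by rw [d1, hD0, hT0]; ring, Or.inr (Or.inl rfl)⟩
    · exact ⟨1 - t1, by rw [d2, d1, hD0, hT1, hT0]; ring, Or.inr (Or.inr (Or.inl rfl))⟩
    · exact ⟨1 - t1 + t1 * t2, by rw [d3, d2, d1, hD0, hT2, hT1, hT0]; ring,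
        Or.inr (Or.inr (Or.inr (Or.inl rfl)))⟩
    · exact ⟨1 - t1 + t1 * t2 - t1 * t2 * t3, by
        rw [d4, d3, d2, d1, hD0, hT3, hT2, hT1, hT0]; ring,
        Or.inr (Or.inr (Or.inr (Or.inr rfl)))⟩
  obtain ⟨Θ, hΘ, hcases⟩ := hDk
  rw [hΘ]
  apply mul_ne_zero hB0
  rcases lt_or_gt_of_ne hy2 with hlt | hgt
  · obtain ⟨p1, l1⟩ := tau_le w0 1 _ y hw0.1 hw0.2 hy1 (by norm_num)
      (prod_le y 2 1 hy1 hlt.le (by norm_num))
    obtain ⟨p2, l2⟩ := tau_le w1 3 _ y hw1.1 hw1.2 hy1 (by norm_num)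
      (prod_le y 2 3 hy1 hlt.le (by norm_num))
    obtain ⟨p3, l3⟩ := tau_le w2 5 _ y hw2.1 hw2.2 hy1 (by norm_num)
      (prod_le y 2 5 hy1 hlt.le (by norm_num))
    have := theta_lo t1 t2 t3 Θ hcases p1 p2 (by linarith) (by linarith) (by linarith)
    exact ne_of_gt (fin_one y a M0 hv Θ hy1 hlt hM hMa (hone hlt) this)
  · obtain ⟨p1, l1⟩ := tau_le w0 1 _ y hw0.1 hw0.2 hy1 (by norm_num)
      (prod_le y 3 1 hy1 hy3.le (by norm_num))
    obtain ⟨p2, l2⟩ := tau_le w1 3 _ y hw1.1 hw1.2 hy1 (by norm_num)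
      (prod_le y 3 3 hy1 hy3.le (by norm_num))
    obtain ⟨p3, l3⟩ := tau_le w2 5 _ y hw2.1 hw2.2 hy1 (by norm_num)
      (prod_le y 3 5 hy1 hy3.le (by norm_num))
    have := theta_up t1 t2 t3 Θ hcases p1 p2 p3 (by linarith) (by linarith)
    exact ne_of_lt (fin_two y a M0 hv Θ hgt hy3 hM hMa (htwo hgt) this)

end BZ

open BZ

theorem stBz (h1 : StVal) (h2 : StMom) (h3 : StReal) (h4 : StEval) : StBz := by
  intro j₀ P₀ ρ₀ hj hRep hB hne k hk x hx1 hx2
  obtain ⟨-, v2, v3, v4, -, -, -, v8⟩ := h1 j₀ P₀ ρ₀ (by omega) hRep hB.good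
  set y : ℝ := j₀ - x with hy
  have hxy : x = j₀ - y := by rw [hy]; ring
  have hy1 : 1 < y := by rw [hy]; linarith
  have hy3 : y < 3 := by rw [hy]; linarith
  by_cases hy2 : y = 2
  · have hn := v8 k (j₀ - 2) (by omega)
    rw [Nat.cast_sub (by omega)] at hn
    push_cast at hn
    rw [hxy, hy2, hn]
    exact mul_ne_zero (pow_ne_zero _ (by norm_num)) hne
  -- the product
  set B : ℝ := (∏ i ∈ Finset.range j₀, (-y + i + 1)) / (j₀.factorial : ℝ) with hBdef
  have hfac : (j₀.factorial : ℝ) ≠ 0 := by exact_mod_cast j₀.factorial_ne_zero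
  have hfact : ∀ i : ℕ, -y + i + 1 ≠ 0 := by
    intro i h0
    have hyi : y = ((i + 1 : ℕ) : ℝ) := by push_cast; linarith
    rw [hyi] at hy1 hy3 hy2
    have e1 : 1 < i + 1 := by exact_mod_cast hy1
    have e2 : i + 1 < 3 := by exact_mod_cast hy3
    have e3 : i + 1 = 2 := by omega
    apply hy2
    rw [e3]
    norm_num
  have hprod : ∏ i ∈ Finset.range j₀, (-y + (i : ℝ) + 1) ≠ 0 :=
    Finset.prod_ne_zero_iff.2 fun i _ => hfact i
  have hB0 : B ≠ 0 := div_ne_zero hprod hfac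
  -- the value of `P₀`
  have hP : P₀.eval x = B * hh ρ₀ j₀ y := by
    have e1 := hRep.2 (-y)
    have e2 : (j₀ : ℝ) + -y = x := by rw [hxy]; ring
    rw [e2] at e1
    have e3 : ∑ l ∈ Finset.range j₀, ρ₀.coeff l * ∏ i ∈ (Finset.range j₀).erase l, (-y + (i : ℝ) + 1) =
        (∏ i ∈ Finset.range j₀, (-y + (i : ℝ) + 1)) * hh ρ₀ j₀ y := by
      unfold hh
      rw [Finset.mul_sum]
      refine Finset.sum_congr rfl fun l hl => ?_
      rw [← Finset.mul_prod_erase _ _ hl]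
      have e4 := hfact l
      have e5 : (l : ℝ) + 1 - y ≠ 0 := by
        intro h; apply e4; linarith
      field_simp
      ring
    rw [e3] at e1
    rw [hBdef, eq_comm, div_mul_eq_mul_div, div_eq_iff hfac]
    exact e1.symm
  -- the moment
  set M0 := M ρ₀ 0 with hM0
  have hM0pos : 0 < M0 := (h2 ρ₀ hB.good).1 0
  have hM0le : M0 ≤ ρ₀.eval 1 / 6 := M0_le hB
  have hK1 : K ρ₀ 1 = M0 := by
    have := (h3 ρ₀ hB.good).2.2.2 0
    simpa using this
  have hbet0 : bet P₀ j₀ 0 = ((j₀ : ℝ) + 1) * M0 := by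
    have e1 := h4 j₀ P₀ ρ₀ hRep 1 one_pos
    have e2 : bin j₀ 1 = (j₀ : ℝ) + 1 := by
      unfold bin
      rw [div_eq_iff hfac]
      have e3 : ∀ n : ℕ, ∏ i ∈ Finset.range n, ((1 : ℝ) + i + 1) = ((n + 1).factorial : ℝ) := by
        intro n
        induction n with
        | zero => simp
        | succ n ih =>
          rw [Finset.prod_range_succ, ih, Nat.factorial_succ (n + 1)]
          push_cast
          ring
      rw [e3, Nat.factorial_succ]
      push_cast
      ring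
    rw [e2, hK1, one_mul] at e1
    unfold bet
    rw [← e1]
    simp [chain]
  -- the terms
  set W : ℕ → ℝ := fun l => ww (chainR ρ₀ j₀ l) with hW
  set T : ℕ → ℝ := fun l => (-1 / 2) ^ (l + 1) * bet P₀ j₀ l * (binX (j₀ + 2 * l + 1)).eval x with hT
  have hT0 : T 0 = B * (y / 2 * M0) := by
    simp only [hT, hbet0]
    rw [mul_zero, add_zero, zero_add, pow_one, binX_eval, hxy, prod_shift, Nat.factorial_succ]
    push_cast
    have e1 : (j₀ : ℝ) + 1 ≠ 0 := by positivity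
    rw [hBdef]
    field_simp
  have hTs : ∀ l, T (l + 1) = -(W l / 2 * ((y + 2 * l + 2) * (y + 2 * l + 1))) * T l := by
    intro l
    simp only [hT, hW]
    rw [v3 l, show j₀ + 2 * (l + 1) + 1 = (j₀ + 2 * l + 1) + 2 by ring, binX_two, hxy]
    push_cast
    have e1 : (j₀ : ℝ) + 2 * l + 1 + 1 ≠ 0 := by positivity
    have e2 : (j₀ : ℝ) + 2 * l + 1 + 2 ≠ 0 := by positivity
    have e3 : (j₀ : ℝ) + 2 * l + 2 ≠ 0 := by positivity
    have e4 : (j₀ : ℝ) + 2 * l + 3 ≠ 0 := by positivity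
    rw [show (j₀ : ℝ) + 2 * l + 1 + 1 = j₀ + 2 * l + 2 by ring,
      show (j₀ : ℝ) + 2 * l + 1 + 2 = j₀ + 2 * l + 3 by ring]
    field_simp
    ring
  have hstep : ∀ l, (chain P₀ j₀ (l + 1)).eval x =
      bet P₀ j₀ l * (binX (j₀ + 2 * l + 1)).eval x - 2 * (chain P₀ j₀ l).eval x := by
    intro l
    have e1 : chain P₀ j₀ (l + 1) = C ((chain P₀ j₀ l).eval ((j₀ + 2 * l + 0 + 1 : ℕ) : ℝ)) *
        binX (j₀ + 2 * l + 0 + 1) - 2 * chain P₀ j₀ l - 0 := rfl
    rw [e1, sub_zero, eval_sub, eval_mul, eval_C, eval_mul]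
    simp [bet]
  set D : ℕ → ℝ := fun l => (-1 / 2) ^ l * (chain P₀ j₀ l).eval x with hD
  have hD0 : D 0 = B * hh ρ₀ j₀ y := by
    simp only [hD, pow_zero, one_mul]
    exact hP
  have hDs : ∀ l, D (l + 1) = D l + T l := by
    intro l
    simp only [hD, hT, hstep l]
    rw [pow_succ]
    ring
  have hfin : D k ≠ 0 → (chain P₀ j₀ k).eval x ≠ 0 := by
    intro h h0
    apply h
    simp only [hD, h0, mul_zero]
  apply hfin
  have hone : y < 2 → 4 * ρ₀.eval 1 ≤ hh ρ₀ j₀ y := fun h => hh_one hB j₀ hj hRep.1 y hy1 h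
  have htwo : 2 < y → hh ρ₀ j₀ y ≤ -(5 / 2 * ρ₀.eval 1) := fun h =>
    hh_two hB j₀ hj hRep.1 y h hy3
  -- the factors
  have hT1 : T 1 = -(W 0 / 2 * ((y + 1 + 1) * (y + 1))) * T 0 := by
    have := hTs 0
    rw [this]
    push_cast
    ring
  have hT2 : T 2 = -(W 1 / 2 * ((y + 3 + 1) * (y + 3))) * T 1 := by
    have := hTs 1
    rw [this]
    push_cast
    ring
  have hT3 : T 3 = -(W 2 / 2 * ((y + 5 + 1) * (y + 5))) * T 2 := by
    have := hTs 2
    rw [this]
    push_cast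
    ring
  have hw0 : 0 < W 0 ∧ W 0 ≤ 5 / 24 := v4 0
  have hw1 : 0 < W 1 ∧ W 1 ≤ 5 / 24 := v4 1
  have hw2 : 0 < W 2 ∧ W 2 ≤ 5 / 24 := v4 2
  have d1 : D 1 = D 0 + T 0 := hDs 0
  have d2 : D 2 = D 1 + T 1 := hDs 1
  have d3 : D 3 = D 2 + T 2 := hDs 2
  have d4 : D 4 = D 3 + T 3 := hDs 3
  clear_value W T D M0 B y
  generalize W 0 = w0 at *
  generalize W 1 = w1 at *
  generalize W 2 = w2 at *
  generalize hh ρ₀ j₀ y = hv at *
  exact stBz_fin y (ρ₀.eval 1) M0 hv B w0 w1 w2 D T k hk hB0 hy1 hy3 hy2 hM0pos hM0le hw0 hw1 hw2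
    hD0 hT0 hT1 hT2 hT3 d1 d2 d3 d4 hone htwo

end Pool.Agent.R737.PK
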