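import Mathlib

/-!
# Peak polynomials with only real roots: definitions
-/

set_option autoImplicit false

open Polynomial

namespace Pool.Agent.R737.PK

/-- The index `i` (counted from `1`) is a peak of the permutation `π` of `n` letters:
`1 < i < n` and `π_{i-1} < π_i > π_{i+1}`. -/
def IsPeak {n : ℕ} (π : Equiv.Perm (Fin n)) (i : ℕ) : Prop :=
  ∃ (_ : 1 < i) (h : i < n), π ⟨i - 2, by omega⟩ < π ⟨i - 1, by omega⟩ ∧
    π ⟨i, h⟩ < π ⟨i - 1, by omega⟩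

/-- The number of the permutations of `n` letters with peak set `S`. -/
noncomputable def count (S : Finset ℕ) (n : ℕ) : ℕ :=
  Nat.card {π : Equiv.Perm (Fin n) // ∀ i : ℕ, IsPeak π i ↔ i ∈ S}

/-- The family `𝓛`. -/
def InL (S : Finset ℕ) : Prop :=
  S = {2} ∨ S = {2, 4} ∨ S = {3} ∨ S = {3, 5} ∨
  (∃ m, m ∈ S ∧ m + 3 ∈ S ∧ ∀ i ∈ S, i ≤ m ∨ i = m + 3) ∨
  (∃ m, m ∈ S ∧ m + 3 ∈ S ∧ m + 5 ∈ S ∧ ∀ i ∈ S, i ≤ m ∨ i = m + 3 ∨ i = m + 5)

/-- All complex roots are real. -/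
def RealRooted (p : ℝ[X]) : Prop := ∀ z : ℂ, aeval z p = 0 → z.im = 0

/-! ## The peak polynomials by recursion -/

/-- the binomial coefficient `X choose n` -/
noncomputable def binX (n : ℕ) : ℝ[X] :=
  C ((n.factorial : ℝ)⁻¹) * ∏ i ∈ Finset.range n, (X - C (i : ℝ))

/-- the peak polynomial of `S₁ ∪ {j + g}` if `P₁` is the one of `S₁` and `j = max S₁` -/
noncomputable def stp (P₁ : ℝ[X]) (j : ℕ) : ℕ → ℝ[X]
  | 0 => 0
  | 1 => 0
  | (g + 2) => C (P₁.eval ((j + g + 1 : ℕ) : ℝ)) * binX (j + g + 1) - 2 * P₁ - stp P₁ j (g + 1)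

/-- the peak polynomial of a set given by the list of its elements in decreasing order -/
noncomputable def pp : List ℕ → ℝ[X]
  | [] => 1
  | (m :: L) => stp (pp L) (L.headD 0) (m - L.headD 0)

/-- decreasing lists of integers at least `2` with gaps at least `2` -/
def Desc (L : List ℕ) : Prop := L.Pairwise (fun a b => b + 2 ≤ a) ∧ ∀ a ∈ L, 2 ≤ a

/-! ## The representation -/

/-- the antiderivative -/
noncomputable def anti (f : ℝ[X]) : ℝ[X] := f.sum fun l a => monomial (l + 1) (a / (l + 1))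

/-- `(J f)(s) = ∫ f` over `[s, 1]` -/
noncomputable def J (f : ℝ[X]) : ℝ[X] := C ((anti f).eval 1) - anti f

/-- the new density -/
noncomputable def nxt (j : ℕ) (ρ : ℝ[X]) (g : ℕ) : ℝ[X] :=
  C (((j + g).factorial : ℝ) / (j.factorial : ℝ)) * ((J^[g] ρ).comp (1 - X) - J^[g] ρ)

/-- the density of `{m}` -/
noncomputable def pure (m : ℕ) : ℝ[X] := C (m : ℝ) * (X ^ (m - 1) - (1 - X) ^ (m - 1))

/-- `P(m + z) = binom(m + z, m) ∫ s ^ z ρ(s) ds`, written without the integral -/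
def Rep (m : ℕ) (P ρ : ℝ[X]) : Prop :=
  ρ.natDegree < m ∧ ∀ z : ℝ, P.eval (m + z) * (m.factorial : ℝ) =
    ∑ l ∈ Finset.range m, ρ.coeff l * ∏ i ∈ (Finset.range m).erase l, (z + i + 1)

/-- `ρ` is antisymmetric and increasing on `[0, 1]` -/
structure Good (ρ : ℝ[X]) : Prop where
  anti : ∀ s : ℝ, ρ.eval (1 - s) = - ρ.eval s
  mono : ∀ s : ℝ, 0 ≤ s → s ≤ 1 → 0 ≤ (derivative ρ).eval s
  pos : 0 < ρ.eval 1

/-- the moments of `σ = J ρ` -/
noncomputable def M (ρ : ℝ[X]) (n : ℕ) : ℝ := ∫ y in (0 : ℝ)..1, y ^ n * (J ρ).eval y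

/-- `∫ y ^ (z - 1) σ(y) dy` -/
noncomputable def K (ρ : ℝ[X]) (z : ℝ) : ℝ := ∫ y in (0 : ℝ)..1, y ^ (z - 1) * (J ρ).eval y

/-- `binom(m + z, m)` -/
noncomputable def bin (m : ℕ) (z : ℝ) : ℝ := (∏ i ∈ Finset.range m, (z + i + 1)) / (m.factorial : ℝ)

/-- the polynomials of the sets with the additional elements `j₀ + 2, …, j₀ + 2 k` -/
noncomputable def chain (P₀ : ℝ[X]) (j₀ : ℕ) : ℕ → ℝ[X]
  | 0 => P₀
  | (k + 1) => stp (chain P₀ j₀ k) (j₀ + 2 * k) 2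

/-- the densities of the sets with the additional elements `j₀ + 2, …, j₀ + 2 k` -/
noncomputable def chainR (ρ₀ : ℝ[X]) (j₀ : ℕ) : ℕ → ℝ[X]
  | 0 => ρ₀
  | (k + 1) => nxt (j₀ + 2 * k) (chainR ρ₀ j₀ k) 2

end Pool.Agent.R737.PK
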