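import Pool.Agent.R737.PK.Stm

/-!
# Peak polynomials with only real roots: the final statement from the pieces
-/

set_option autoImplicit false

open Polynomial

namespace Pool.Agent.R737.PK

/-- `p` is the peak polynomial of `S`: for all `n` at least `max S`, the number of the permutations of
`n` letters with peak set `S` is `p(n) 2 ^ (n - |S| - 1)`. -/
def IsPeakPolynomial (S : Finset ℕ) (p : ℚ[X]) : Prop :=
  ∀ n : ℕ, (∀ i ∈ S, i ≤ n) → (count S n : ℚ) = p.eval (n : ℚ) * 2 ^ (n - S.card - 1)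

lemma binX_rat (n : ℕ) : ∃ q : ℚ[X], binX n = q.map (algebraMap ℚ ℝ) := by
  refine ⟨C ((n.factorial : ℚ)⁻¹) * ∏ i ∈ Finset.range n, (X - C (i : ℚ)), ?_⟩
  rw [binX, Polynomial.map_mul, Polynomial.map_prod]
  simp

lemma stp_rat (P : ℝ[X]) (j : ℕ) (h : ∃ q : ℚ[X], P = q.map (algebraMap ℚ ℝ)) :
    ∀ g, ∃ q : ℚ[X], stp P j g = q.map (algebraMap ℚ ℝ) := by
  have key : ∀ g, (∃ q : ℚ[X], stp P j g = q.map (algebraMap ℚ ℝ)) ∧
      ∃ q : ℚ[X], stp P j (g + 1) = q.map (algebraMap ℚ ℝ) := by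
    intro g
    induction g with
    | zero => exact ⟨⟨0, by simp [stp]⟩, ⟨0, by simp [stp]⟩⟩
    | succ g ih =>
      refine ⟨ih.2, ?_⟩
      obtain ⟨q1, h1⟩ := ih.2
      obtain ⟨q, hq⟩ := h
      obtain ⟨b, hb⟩ := binX_rat (j + g + 1)
      refine ⟨C (q.eval ((j + g + 1 : ℕ) : ℚ)) * b - 2 * q - q1, ?_⟩
      have e1 : P.eval ((j + g + 1 : ℕ) : ℝ) = algebraMap ℚ ℝ (q.eval ((j + g + 1 : ℕ) : ℚ)) := by
        rw [hq, Polynomial.eval_natCast_map]
      change C (P.eval ((j + g + 1 : ℕ) : ℝ)) * binX (j + g + 1) - 2 * P - stp P j (g + 1) = _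
      rw [e1, hb, h1, hq]
      simp only [Polynomial.map_sub, Polynomial.map_mul, Polynomial.map_C, Polynomial.map_ofNat]
  exact fun g => (key g).1

lemma pp_rat : ∀ L, ∃ q : ℚ[X], pp L = q.map (algebraMap ℚ ℝ) := by
  intro L
  induction L with
  | nil => exact ⟨1, by simp [pp]⟩
  | cons m L ih => exact stp_rat _ _ ih _

lemma desc_len : ∀ (L : List ℕ) (m : ℕ), Desc (m :: L) → 2 * (L.length + 1) ≤ m := by
  intro L
  induction L with
  | nil =>
    intro m h
    have := h.2 m (by simp)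
    simpa using this
  | cons j L ih =>
    intro m h
    have h1 := ih j ⟨(List.pairwise_cons.1 h.1).2, fun a ha => h.2 a (List.mem_cons_of_mem _ ha)⟩
    have h2 := (List.pairwise_cons.1 h.1).1 j (by simp)
    simp only [List.length_cons]
    omega

theorem final (hComb : StComb) (hAdm : StAdm) (hMain : StMain) :
    ∀ S : Finset ℕ, S.Nonempty → (∃ n, count S n ≠ 0) →
      (∃! p : ℚ[X], IsPeakPolynomial S p) ∧
      ∀ p : ℚ[X], IsPeakPolynomial S p → (∀ z : ℂ, aeval z p = 0 → z.im = 0) →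
        (∀ z : ℂ, aeval z p = 0 → ∃ a : ℤ, z = a) ∧ InL S := by
  rintro S hS ⟨n₀, hn₀⟩
  obtain ⟨L, hL, rfl⟩ := hAdm.2 S (fun i hi => ⟨(hAdm.1 S n₀ hn₀ i hi).1, (hAdm.1 S n₀ hn₀ i hi).2.2⟩)
  have hne : L ≠ [] := by
    rintro rfl
    simp at hS
  obtain ⟨Q, hQ⟩ := pp_rat L
  obtain ⟨m, L', rfl⟩ := List.exists_cons_of_ne_nil hne
  have hnd : (m :: L').Nodup := by
    refine List.Pairwise.imp ?_ hL.1
    intro a b hab
    omega
  have hcard : (m :: L').toFinset.card = L'.length + 1 := by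
    rw [List.toFinset_card_of_nodup hnd]
    rfl
  have hlen := desc_len L' m hL
  have hm2 : 2 ≤ m := hL.2 m (by simp)
  have hmax : ∀ i ∈ (m :: L').toFinset, i ≤ m := by
    intro i hi
    rw [List.mem_toFinset] at hi
    rcases List.mem_cons.1 hi with rfl | hi
    · exact le_refl _
    · have := (List.pairwise_cons.1 hL.1).1 i hi
      omega
  have hval : ∀ n : ℕ, m ≤ n → (count (m :: L').toFinset n : ℚ) =
      Q.eval (n : ℚ) * 2 ^ (n - (m :: L').toFinset.card - 1) := by
    intro n hn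
    have h1 := hComb (m :: L') hL n (by omega) (by simpa using hn)
    rw [hQ, Polynomial.eval_natCast_map] at h1
    have h2 : ((count (m :: L').toFinset n : ℚ) : ℝ) =
        ((Q.eval (n : ℚ) * 2 ^ (n - (m :: L').toFinset.card - 1) : ℚ) : ℝ) := by
      push_cast
      rw [h1, hcard]
      have h3 : (2 : ℝ) ^ n = 2 ^ (n - (L'.length + 1) - 1) * 2 ^ (L'.length + 1 + 1) := by
        rw [← pow_add]
        congr 1
        omega
      rw [List.length_cons, h3]
      have h4 : (2 : ℝ) ^ (L'.length + 1 + 1) ≠ 0 := by positivity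
      field_simp
      simp
    exact_mod_cast h2
  have hQp : IsPeakPolynomial (m :: L').toFinset Q := by
    intro n hn
    exact hval n (hn m (by simp))
  have huniq : ∀ p : ℚ[X], IsPeakPolynomial (m :: L').toFinset p → p = Q := by
    intro p hp
    apply Polynomial.eq_of_infinite_eval_eq
    apply Set.infinite_of_injective_forall_mem (f := fun k : ℕ => ((m + k : ℕ) : ℚ))
    · intro a b hab
      have h0 : ((m + a : ℕ) : ℚ) = ((m + b : ℕ) : ℚ) := hab
      have : m + a = m + b := by exact_mod_cast h0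
      omega
    · intro k
      have h1 := hp (m + k) (fun i hi => (hmax i hi).trans (Nat.le_add_right _ _))
      rw [hval (m + k) (Nat.le_add_right _ _)] at h1
      have h4 : (2 : ℚ) ^ (m + k - (m :: L').toFinset.card - 1) ≠ 0 := by positivity
      exact (mul_right_cancel₀ h4 h1).symm
  refine ⟨⟨Q, hQp, huniq⟩, ?_⟩
  intro p hp hreal
  rw [huniq p hp] at hreal ⊢
  have hconv : ∀ z : ℂ, aeval z (pp (m :: L')) = aeval z Q := by
    intro z
    rw [hQ, aeval_map_algebraMap]
  obtain ⟨h1, h2⟩ := hMain (m :: L') hL hne (fun z hz => hreal z (by rw [← hconv]; exact hz))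
  exact ⟨fun z hz => h1 z (by rw [hconv]; exact hz), h2⟩

end Pool.Agent.R737.PK
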