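import Pool.Agent.R737.PK.Stm

/-!
# Peak polynomials with only real roots: PIECE GOOD
-/

set_option autoImplicit false

open Polynomial

namespace Pool.Agent.R737.PK

namespace GoodP

theorem derivative_anti (f : ℝ[X]) : derivative (anti f) = f := by
  unfold anti
  rw [Polynomial.sum_def, map_sum]
  conv_rhs => rw [f.as_sum_support]
  apply Finset.sum_congr rfl
  intro l _
  rw [derivative_monomial]
  congr 1
  have : ((l : ℝ) + 1) ≠ 0 := by positivity
  push_cast
  field_simp

theorem derivative_J (f : ℝ[X]) : derivative (J f) = -f := by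
  unfold J
  rw [derivative_sub, derivative_C, derivative_anti, zero_sub]

theorem J_one (f : ℝ[X]) : (J f).eval 1 = 0 := by
  unfold J
  simp

theorem hasDeriv_J (f : ℝ[X]) (s : ℝ) : HasDerivAt (fun s => (J f).eval s) (-(f.eval s)) s := by
  have := (J f).hasDerivAt s
  rw [derivative_J, eval_neg] at this
  exact this

/-- `J f` is decreasing where `f` is nonnegative -/
theorem J_anti {f : ℝ[X]} {a b : ℝ} (h : ∀ s, a ≤ s → s ≤ b → 0 ≤ f.eval s) :
    AntitoneOn (fun s => (J f).eval s) (Set.Icc a b) := by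
  apply antitoneOn_of_deriv_nonpos (convex_Icc a b)
  · exact (J f).continuous.continuousOn
  · intro x _
    exact (hasDeriv_J f x).differentiableAt.differentiableWithinAt
  · intro x hx
    rw [interior_Icc] at hx
    rw [(hasDeriv_J f x).deriv]
    have := h x hx.1.le hx.2.le
    linarith

theorem J_nonneg {f : ℝ[X]} (h : ∀ s, 0 ≤ s → s ≤ 1 → 0 ≤ f.eval s) (s : ℝ) (h0 : 0 ≤ s)
    (h1 : s ≤ 1) : 0 ≤ (J f).eval s := by
  have := J_anti h (Set.mem_Icc.2 ⟨h0, h1⟩) (Set.mem_Icc.2 ⟨zero_le_one, le_rfl⟩) h1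
  simp only [J_one] at this
  exact this

theorem J_ne {f : ℝ[X]} (h : f ≠ 0) : J f ≠ 0 := by
  intro hJ
  apply h
  have := derivative_J f
  rw [hJ, derivative_zero] at this
  exact neg_eq_zero.1 this.symm

theorem J_zero_pos {f : ℝ[X]} (h : ∀ s, 0 ≤ s → s ≤ 1 → 0 ≤ f.eval s) (hf : f ≠ 0) :
    0 < (J f).eval 0 := by
  rcases (J_nonneg h 0 le_rfl zero_le_one).lt_or_eq with h1 | h1
  · exact h1
  · exfalso
    apply J_ne hf
    apply Polynomial.eq_zero_of_infinite_isRoot
    apply Set.Infinite.mono _ (Set.Icc_infinite (zero_lt_one (α := ℝ)))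
    intro s hs
    have h2 := J_anti h (Set.mem_Icc.2 ⟨le_rfl, zero_le_one⟩) hs hs.1
    simp only at h2
    have h3 := J_nonneg h s hs.1 hs.2
    change (J f).IsRoot s
    rw [IsRoot.def]
    linarith

theorem J_symm {ρ : ℝ[X]} (h : ∀ s : ℝ, ρ.eval (1 - s) = - ρ.eval s) (s : ℝ) :
    (J ρ).eval (1 - s) = (J ρ).eval s := by
  have hd : ∀ t : ℝ, HasDerivAt (fun t : ℝ => (J ρ).eval (1 - t) - (J ρ).eval t) 0 t := by
    intro t
    have h1 : HasDerivAt (fun t : ℝ => (J ρ).eval (1 - t)) (-(ρ.eval (1 - t)) * (-1)) t := by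
      have h2 : HasDerivAt (fun t : ℝ => 1 - t) (-1) t := by
        simpa using (hasDerivAt_id t).const_sub 1
      exact (hasDeriv_J ρ (1 - t)).comp t h2
    have h3 : HasDerivAt (fun t : ℝ => (J ρ).eval (1 - t) - (J ρ).eval t)
        (-(ρ.eval (1 - t)) * (-1) - -(ρ.eval t)) t := h1.sub (hasDeriv_J ρ t)
    have h4 : -(ρ.eval (1 - t)) * (-1) - -(ρ.eval t) = 0 := by
      rw [h]
      ring
    rw [h4] at h3
    exact h3
  have hc : (J ρ).eval (1 - s) - (J ρ).eval s =
      (J ρ).eval (1 - (1 / 2 : ℝ)) - (J ρ).eval (1 / 2 : ℝ) :=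
    is_const_of_deriv_eq_zero (fun t => (hd t).differentiableAt) (fun t => (hd t).deriv) s (1 / 2)
  have : (1 : ℝ) - 1 / 2 = 1 / 2 := by norm_num
  rw [this, sub_self] at hc
  linarith

theorem mono_of {ρ : ℝ[X]} (h : Good ρ) : MonotoneOn (fun s => ρ.eval s) (Set.Icc 0 1) := by
  apply monotoneOn_of_deriv_nonneg (convex_Icc 0 1)
  · exact ρ.continuous.continuousOn
  · intro x _
    exact (ρ.hasDerivAt x).differentiableAt.differentiableWithinAt
  · intro x hx
    rw [interior_Icc] at hx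
    rw [(ρ.hasDerivAt x).deriv]
    exact h.mono x hx.1.le hx.2.le

/-- `σ = J ρ ≥ 0` on `[0, 1]` -/
theorem sig_nonneg {ρ : ℝ[X]} (h : Good ρ) (s : ℝ) (h0 : 0 ≤ s) (h1 : s ≤ 1) :
    0 ≤ (J ρ).eval s := by
  have hhalf : ρ.eval (1 / 2) = 0 := by
    have := h.anti (1 / 2)
    have e : (1 : ℝ) - 1 / 2 = 1 / 2 := by norm_num
    rw [e] at this
    linarith
  have hup : ∀ t : ℝ, 1 / 2 ≤ t → t ≤ 1 → 0 ≤ ρ.eval t := by
    intro t ht1 ht2
    have := mono_of h (Set.mem_Icc.2 ⟨by norm_num, by norm_num⟩ : (1 / 2 : ℝ) ∈ Set.Icc (0 : ℝ) 1)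
      (Set.mem_Icc.2 ⟨by linarith, ht2⟩) ht1
    simp only [hhalf] at this
    exact this
  have hup2 : ∀ t : ℝ, 1 / 2 ≤ t → t ≤ 1 → 0 ≤ (J ρ).eval t := by
    intro t ht1 ht2
    have := J_anti hup (Set.mem_Icc.2 ⟨ht1, ht2⟩) (Set.mem_Icc.2 ⟨by norm_num, le_rfl⟩) ht2
    simp only [J_one] at this
    exact this
  by_cases hs : 1 / 2 ≤ s
  · exact hup2 s hs h1
  · rw [← J_symm h.anti]
    push Not at hs
    exact hup2 (1 - s) (by linarith) (by linarith)

theorem iter_nonneg {ρ : ℝ[X]} (h : Good ρ) (n : ℕ) :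
    ∀ s : ℝ, 0 ≤ s → s ≤ 1 → 0 ≤ (J^[n + 1] ρ).eval s := by
  induction n with
  | zero =>
    intro s h0 h1
    exact sig_nonneg h s h0 h1
  | succ n ih =>
    intro s h0 h1
    rw [Function.iterate_succ_apply']
    exact J_nonneg ih s h0 h1

theorem good_ne {ρ : ℝ[X]} (h : Good ρ) : ρ ≠ 0 := by
  intro h0
  have := h.pos
  rw [h0, eval_zero] at this
  exact lt_irrefl _ this

theorem iter_ne {ρ : ℝ[X]} (h : Good ρ) (n : ℕ) : J^[n] ρ ≠ 0 := by
  induction n with
  | zero => exact good_ne h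
  | succ n ih =>
    rw [Function.iterate_succ_apply']
    exact J_ne ih

end GoodP

open GoodP in
theorem stGood : StGood := by
  constructor
  · intro j ρ h g hg
    obtain ⟨k, rfl⟩ : ∃ k, g = k + 1 + 1 := ⟨g - 2, by omega⟩
    have hc : 0 < (((j + (k + 1 + 1)).factorial : ℝ) / (j.factorial : ℝ)) := by positivity
    have hev : ∀ s : ℝ, (nxt j ρ (k + 1 + 1)).eval s =
        (((j + (k + 1 + 1)).factorial : ℝ) / (j.factorial : ℝ)) *
          ((J^[k + 1 + 1] ρ).eval (1 - s) - (J^[k + 1 + 1] ρ).eval s) := by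
      intro s
      unfold nxt
      simp [eval_comp]
    have hder : ∀ s : ℝ, (derivative (nxt j ρ (k + 1 + 1))).eval s =
        (((j + (k + 1 + 1)).factorial : ℝ) / (j.factorial : ℝ)) *
          ((J^[k + 1] ρ).eval (1 - s) + (J^[k + 1] ρ).eval s) := by
      intro s
      unfold nxt
      rw [derivative_C_mul, derivative_sub, derivative_comp, Function.iterate_succ_apply',
        derivative_J]
      simp only [eval_mul, eval_sub, eval_neg, eval_C, eval_comp, eval_one, eval_X, eval_zero,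
        derivative_sub, derivative_one, derivative_X, neg_comp]
      ring
    refine ⟨?_, ?_, ?_⟩
    · intro s
      rw [hev, hev, sub_sub_cancel]
      ring
    · intro s h0 h1
      rw [hder]
      have a1 := iter_nonneg h k s h0 h1
      have a2 := iter_nonneg h k (1 - s) (by linarith) (by linarith)
      positivity
    · rw [hev, sub_self]
      have a1 : 0 < (J^[k + 1 + 1] ρ).eval 0 := by
        rw [Function.iterate_succ_apply']
        exact J_zero_pos (iter_nonneg h k) (iter_ne h (k + 1))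
      have a2 : (J^[k + 1 + 1] ρ).eval 1 = 0 := by
        rw [Function.iterate_succ_apply']
        exact J_one _
      rw [a2, sub_zero]
      positivity
  · intro m hm
    obtain ⟨k, rfl⟩ : ∃ k, m = k + 1 + 1 := ⟨m - 2, by omega⟩
    refine ⟨?_, ?_, ?_⟩
    · intro s
      unfold pure
      simp only [eval_mul, eval_sub, eval_C, eval_pow, eval_X, eval_one, sub_sub_cancel]
      ring
    · intro s h0 h1
      unfold pure
      rw [derivative_C_mul, derivative_sub, show k + 1 + 1 - 1 = k + 1 from rfl,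
        derivative_X_pow, derivative_pow]
      simp only [eval_mul, eval_sub, eval_C, eval_pow, eval_X, derivative_sub, derivative_one,
        derivative_X, eval_one, eval_zero, Nat.add_sub_cancel]
      have h2 : 0 ≤ 1 - s := by linarith
      have : (((k + 1 + 1 : ℕ) : ℝ) * (((k + 1 : ℕ) : ℝ) * s ^ k -
        ((k + 1 : ℕ) : ℝ) * (1 - s) ^ k * (0 - 1))) =
        ((k + 1 + 1 : ℕ) : ℝ) * (((k + 1 : ℕ) : ℝ) * s ^ k + ((k + 1 : ℕ) : ℝ) * (1 - s) ^ k) := by
        ring
      rw [this]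
      positivity
    · unfold pure
      simp only [eval_mul, eval_sub, eval_C, eval_pow, eval_X, eval_one, sub_self, one_pow,
        Nat.add_sub_cancel, zero_pow (Nat.succ_ne_zero k), sub_zero, mul_one]
      positivity

end Pool.Agent.R737.PK
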