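import Pool.Agent.R737.PK.Stm

/-! Piece LIN for MP_8cb80e_co. -/

set_option autoImplicit false

open Polynomial Finset

namespace Pool.Agent.R737.PK

namespace Li

lemma binX_succ (n : ℕ) : binX (n + 1) = C ((((n + 1).factorial : ℕ) : ℝ)⁻¹) *
    ((∏ i ∈ range n, (X - C (i : ℝ))) * (X - C (n : ℝ))) := by
  unfold binX; rw [prod_range_succ]

lemma prod_one (j : ℕ) : ∏ i ∈ range j, ((1 : ℝ) + i + 1) = ((j + 1).factorial : ℝ) := by
  induction j with
  | zero => simp
  | succ j ih => rw [prod_range_succ, ih, Nat.factorial_succ (j + 1)]; push_cast; ring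

lemma prod_two (j : ℕ) : ∏ i ∈ range j, ((2 : ℝ) + i + 1) = ((j + 2).factorial : ℝ) / 2 := by
  induction j with
  | zero => simp
  | succ j ih => rw [prod_range_succ, ih, Nat.factorial_succ (j + 2)]; push_cast; ring

end Li

open Li in
theorem stLin (h1 : StMom) (h2 : StReal) (h3 : StEval) : StLin := by
  refine ⟨?_, ?_, ?_⟩
  · apply Polynomial.funext
    intro x
    simp [stp, lin, binX]
  · apply Polynomial.funext
    intro x
    simp [stp, lin, binX, prod_range_succ]
    ring
  · intro j P ρ hj hR hG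
    obtain ⟨hM0, hM1, -⟩ := h1 ρ hG
    obtain ⟨-, -, -, hK⟩ := h2 ρ hG
    have e1 := h3 j P ρ hR 1 one_pos
    have e2 := h3 j P ρ hR 2 two_pos
    have k1 : K ρ 1 = M ρ 0 := by have := hK 0; simpa using this
    have k2 : K ρ 2 = M ρ 1 := by
      have := hK 1
      rw [← this]; norm_num
    have hf : ((j.factorial : ℕ) : ℝ) ≠ 0 := by exact_mod_cast j.factorial_ne_zero
    have f1 : (((j + 1).factorial : ℕ) : ℝ) = (j + 1) * j.factorial := by
      rw [Nat.factorial_succ]; push_cast; ring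
    have f2 : (((j + 2).factorial : ℕ) : ℝ) = (j + 2) * ((j + 1) * j.factorial) := by
      rw [Nat.factorial_succ, Nat.factorial_succ]; push_cast; ring
    have e1' : P.eval ((j : ℝ) + 1) = (j + 1) * M ρ 0 := by
      rw [e1, k1]
      unfold bin
      rw [prod_one, f1]
      field_simp
    have e2' : P.eval ((j : ℝ) + 2) = (j + 1) * (j + 2) / 2 * M ρ 0 := by
      rw [e2, k2]
      unfold bin
      rw [prod_two, f2]
      have : M ρ 1 = M ρ 0 / 2 := by linarith
      rw [this]
      field_simp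
    have hpos := hM0 0
    refine ⟨(j + 1) * M ρ 0 / (2 * ((j + 1).factorial : ℝ)), ?_, ?_⟩
    · have : (((j + 1).factorial : ℕ) : ℝ) ≠ 0 := by exact_mod_cast (j + 1).factorial_ne_zero
      positivity
    · apply Polynomial.funext
      intro x
      have g1 : (j + 3 : ℕ) - 2 = j + 1 := rfl
      unfold lin
      rw [g1]
      have s2 : stp P j 2 = C (P.eval ((j + 0 + 1 : ℕ) : ℝ)) * binX (j + 0 + 1) - 2 * P - stp P j 1 := rfl
      have s3 : stp P j 3 = C (P.eval ((j + 1 + 1 : ℕ) : ℝ)) * binX (j + 1 + 1) - 2 * P - stp P j 2 := rfl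
      have s1 : stp P j 1 = 0 := rfl
      have c1 : ((j + 0 + 1 : ℕ) : ℝ) = (j : ℝ) + 1 := by push_cast; ring
      have c2 : ((j + 1 + 1 : ℕ) : ℝ) = (j : ℝ) + 2 := by push_cast; ring
      rw [s3, s2, s1, c1, c2, e1', e2', binX_succ (j + 1)]
      unfold binX
      simp only [add_zero, eval_sub, eval_mul, eval_C, eval_X, eval_prod, sub_zero, eval_ofNat]
      rw [show j + 1 + 1 = j + 2 from rfl, f2, f1]
      set Q := ∏ i ∈ range (j + 1), (x - (i : ℝ))
      have hj1 : (j : ℝ) + 1 ≠ 0 := by positivity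
      have hj2 : (j : ℝ) + 2 ≠ 0 := by positivity
      push_cast
      field_simp
      ring

end Pool.Agent.R737.PK

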