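import Pool.Agent.R737.PK.Stm

/-!
# Peak polynomials: moment inequalities (PIECE MOM)
-/

set_option autoImplicit false
set_option linter.unusedSimpArgs false

open Polynomial

namespace Pool.Agent.R737.PK

namespace Mom

/-- the integral of a polynomial over `[0, 1]` -/
noncomputable def I (P : ℝ[X]) : ℝ := ∫ y in (0 : ℝ)..1, P.eval y

lemma I_int (P : ℝ[X]) :
    IntervalIntegrable (fun y => P.eval y) MeasureTheory.volume (0 : ℝ) 1 :=
  P.continuous.intervalIntegrable _ _

lemma I_add (P Q : ℝ[X]) : I (P + Q) = I P + I Q := by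
  simp only [I, eval_add]
  exact intervalIntegral.integral_add (I_int P) (I_int Q)

lemma I_sub (P Q : ℝ[X]) : I (P - Q) = I P - I Q := by
  simp only [I, eval_sub]
  exact intervalIntegral.integral_sub (I_int P) (I_int Q)

lemma I_C_mul (c : ℝ) (P : ℝ[X]) : I (C c * P) = c * I P := by
  simp only [I, eval_mul, eval_C]
  exact intervalIntegral.integral_const_mul _ _

lemma I_nonneg (P : ℝ[X]) (h : ∀ y ∈ Set.Icc (0 : ℝ) 1, 0 ≤ P.eval y) : 0 ≤ I P :=
  intervalIntegral.integral_nonneg (by norm_num) h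

lemma I_deriv (P : ℝ[X]) : I (derivative P) = P.eval 1 - P.eval 0 :=
  intervalIntegral.integral_eq_sub_of_hasDerivAt (fun y _ => P.hasDerivAt y) (I_int _)

lemma I_symm (P : ℝ[X]) : I (P.comp (1 - X)) = I P := by
  have h := intervalIntegral.integral_comp_sub_left (a := (0 : ℝ)) (b := 1)
    (fun y => P.eval y) 1
  simp only [sub_zero, sub_self] at h
  simp only [I, eval_comp, eval_sub, eval_one, eval_X]
  exact h

lemma derivative_anti (f : ℝ[X]) : derivative (anti f) = f := by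
  unfold anti
  rw [Polynomial.sum, derivative_sum]
  conv_rhs => rw [← Polynomial.sum_monomial_eq f]
  rw [Polynomial.sum]
  refine Finset.sum_congr rfl fun l _ => ?_
  rw [derivative_monomial]
  have : ((l : ℝ) + 1) ≠ 0 := by positivity
  simp only [Nat.add_sub_cancel, Nat.cast_add, Nat.cast_one]
  rw [div_mul_cancel₀ _ this]

lemma derivative_J (f : ℝ[X]) : derivative (J f) = -f := by
  unfold J
  rw [derivative_sub, derivative_C, derivative_anti, zero_sub]

lemma J_one (f : ℝ[X]) : (J f).eval 1 = 0 := by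
  unfold J
  simp

lemma M_eq (ρ : ℝ[X]) (n : ℕ) : M ρ n = I (X ^ n * J ρ) := by
  unfold M I
  simp

variable {ρ : ℝ[X]}

/-- symmetry -/
lemma J_symm (h : Good ρ) : (J ρ).comp (1 - X) = J ρ := by
  have hder : derivative ((J ρ).comp (1 - X) - J ρ) = 0 := by
    rw [derivative_sub, derivative_comp, derivative_J]
    apply Polynomial.funext
    intro s
    have h1 := h.anti s
    simp only [derivative_sub, derivative_one, derivative_X, eval_sub, eval_mul, eval_comp,
      eval_neg, eval_one, eval_X, eval_zero]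
    rw [h1]
    ring
  obtain ⟨c, hc⟩ : ∃ c, (J ρ).comp (1 - X) - J ρ = C c :=
    ⟨_, eq_C_of_derivative_eq_zero hder⟩
  have hc0 : c = 0 := by
    have := congrArg (fun p => p.eval (1 / 2 : ℝ)) hc
    simp only [eval_sub, eval_comp, eval_one, eval_X, eval_C] at this
    norm_num at this
    exact this.symm
  rw [hc0, C_0, sub_eq_zero] at hc
  exact hc

lemma J_symm' (h : Good ρ) (s : ℝ) : (J ρ).eval (1 - s) = (J ρ).eval s := by
  have := congrArg (fun p => p.eval s) (J_symm h)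
  simpa only [eval_comp, eval_sub, eval_one, eval_X] using this

lemma J_zero (h : Good ρ) : (J ρ).eval 0 = 0 := by
  have := J_symm' h 1
  rw [sub_self] at this
  rw [this, J_one]

lemma rho_half (h : Good ρ) : ρ.eval (1 / 2) = 0 := by
  have := h.anti (1 / 2)
  norm_num at this
  linarith

lemma rho_mono (h : Good ρ) : MonotoneOn (fun s => ρ.eval s) (Set.Icc (0 : ℝ) 1) := by
  refine monotoneOn_of_deriv_nonneg (convex_Icc _ _) ρ.continuous.continuousOn
    ρ.differentiable.differentiableOn ?_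
  intro x hx
  rw [interior_Icc] at hx
  rw [Polynomial.deriv]
  exact h.mono x hx.1.le hx.2.le

lemma rho_nonneg (h : Good ρ) (s : ℝ) (h1 : 1 / 2 ≤ s) (h2 : s ≤ 1) : 0 ≤ ρ.eval s := by
  have := rho_mono h (⟨by norm_num, by norm_num⟩ : (1 / 2 : ℝ) ∈ Set.Icc (0 : ℝ) 1)
    (⟨by linarith, h2⟩ : s ∈ Set.Icc (0 : ℝ) 1) h1
  simp only [rho_half h] at this
  exact this

lemma J_nonneg_right (h : Good ρ) (s : ℝ) (h1 : 1 / 2 ≤ s) (h2 : s ≤ 1) :
    0 ≤ (J ρ).eval s := by
  have hanti : AntitoneOn (fun s => (J ρ).eval s) (Set.Icc (1 / 2 : ℝ) 1) := by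
    refine antitoneOn_of_deriv_nonpos (convex_Icc _ _) (J ρ).continuous.continuousOn
      (J ρ).differentiable.differentiableOn ?_
    intro x hx
    rw [interior_Icc] at hx
    rw [Polynomial.deriv, derivative_J, eval_neg]
    have := rho_nonneg h x hx.1.le hx.2.le
    linarith
  have := hanti (⟨h1, h2⟩ : s ∈ Set.Icc (1 / 2 : ℝ) 1)
    (⟨by norm_num, le_refl _⟩ : (1 : ℝ) ∈ Set.Icc (1 / 2 : ℝ) 1) h2
  simp only [J_one] at this
  exact this

lemma J_nonneg (h : Good ρ) (s : ℝ) (h1 : 0 ≤ s) (h2 : s ≤ 1) : 0 ≤ (J ρ).eval s := by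
  rcases le_total (1 / 2) s with h3 | h3
  · exact J_nonneg_right h s h3 h2
  · rw [← J_symm' h s]
    exact J_nonneg_right h (1 - s) (by linarith) (by linarith)

lemma exists_pos (h : Good ρ) : ∃ c ∈ Set.Ioc (0 : ℝ) 1, 0 < (J ρ).eval c := by
  by_contra hcon
  push Not at hcon
  have hz : ∀ c ∈ Set.Ioc (0 : ℝ) 1, (J ρ).eval c = 0 := fun c hc =>
    le_antisymm (hcon c hc) (J_nonneg h c hc.1.le hc.2)
  have h0 : J ρ = 0 := by
    refine Polynomial.eq_zero_of_infinite_isRoot _ ?_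
    refine Set.Infinite.mono (s := Set.Ioc (0 : ℝ) 1) ?_ (Set.Ioc_infinite (by norm_num))
    intro c hc
    exact hz c hc
  have h1 : ρ = 0 := by
    have := derivative_J ρ
    rw [h0, derivative_zero] at this
    have := neg_eq_zero.mp this.symm
    exact this
  have := h.pos
  rw [h1, eval_zero] at this
  exact lt_irrefl _ this

lemma M_pos (h : Good ρ) (n : ℕ) : 0 < M ρ n := by
  obtain ⟨c, hc, hc'⟩ := exists_pos h
  unfold M
  refine intervalIntegral.integral_pos (by norm_num) ?_ ?_ ?_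
  · exact ((continuous_id.pow n).mul (J ρ).continuous).continuousOn
  · intro y hy
    exact mul_nonneg (pow_nonneg hy.1.le n) (J_nonneg h y hy.1.le hy.2)
  · exact ⟨c, ⟨hc.1.le, hc.2⟩, mul_pos (pow_pos hc.1 n) hc'⟩

/-- the main inequality: integration by parts -/
lemma I_parts (h : Good ρ) (H : ℝ[X]) (h0 : H.eval 0 = 0) (h1 : H.eval 1 = 0)
    (hH : ∀ y ∈ Set.Icc (0 : ℝ) 1, 0 ≤ H.eval y) :
    I (J ρ * derivative (derivative H)) ≤ 0 := by
  have hW : derivative (ρ * H + J ρ * derivative H) =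
      derivative ρ * H + J ρ * derivative (derivative H) := by
    rw [derivative_add, derivative_mul, derivative_mul, derivative_J]
    ring
  have h2 := I_deriv (ρ * H + J ρ * derivative H)
  rw [hW, I_add] at h2
  simp only [eval_add, eval_mul, h0, h1, J_zero h, J_one, mul_zero, zero_mul, add_zero,
    sub_self] at h2
  have h3 : 0 ≤ I (derivative ρ * H) := by
    apply I_nonneg
    intro y hy
    rw [eval_mul]
    exact mul_nonneg (h.mono y hy.1 hy.2) (hH y hy)
  linarith

lemma M1 (h : Good ρ) : 2 * M ρ 1 = M ρ 0 := by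
  have h1 := I_symm (X * J ρ)
  rw [mul_comp, J_symm h, X_comp] at h1
  have h2 : (1 - X) * J ρ = J ρ - X * J ρ := by ring
  rw [h2, I_sub] at h1
  rw [M_eq, M_eq, pow_one, pow_zero, one_mul]
  linarith

lemma M_CS (h : Good ρ) (n : ℕ) : M ρ (n + 1) ^ 2 ≤ M ρ n * M ρ (n + 2) := by
  have hp := M_pos h n
  set t := M ρ (n + 1) / M ρ n with ht
  have h1 : 0 ≤ I (X ^ n * (X - C t) ^ 2 * J ρ) := by
    apply I_nonneg
    intro y hy
    simp only [eval_mul, eval_pow, eval_X, eval_sub, eval_C]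
    exact mul_nonneg (mul_nonneg (pow_nonneg hy.1 n) (sq_nonneg _)) (J_nonneg h y hy.1 hy.2)
  have h2 : X ^ n * (X - C t) ^ 2 * J ρ = X ^ (n + 2) * J ρ - C (2 * t) * (X ^ (n + 1) * J ρ) +
      C (t ^ 2) * (X ^ n * J ρ) := by
    rw [C_mul, C_pow]
    have : (C (2 : ℝ) : ℝ[X]) = 2 := rfl
    rw [this]
    ring
  rw [h2, I_add, I_sub, I_C_mul, I_C_mul, ← M_eq, ← M_eq, ← M_eq] at h1
  have h3 : t * M ρ n = M ρ (n + 1) := by
    rw [ht]
    field_simp
  have h4 : 0 ≤ M ρ n * (M ρ (n + 2) - 2 * t * M ρ (n + 1) + t ^ 2 * M ρ n) :=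
    mul_nonneg hp.le h1
  have h5 : M ρ n * (M ρ (n + 2) - 2 * t * M ρ (n + 1) + t ^ 2 * M ρ n) =
      M ρ n * M ρ (n + 2) - 2 * (t * M ρ n) * M ρ (n + 1) + (t * M ρ n) ^ 2 := by ring
  rw [h5, h3] at h4
  nlinarith [h4]

lemma M_anti (h : Good ρ) (n : ℕ) : M ρ (n + 1) ≤ M ρ n := by
  have h1 : 0 ≤ I (X ^ n * (1 - X) * J ρ) := by
    apply I_nonneg
    intro y hy
    simp only [eval_mul, eval_pow, eval_X, eval_sub, eval_one]
    exact mul_nonneg (mul_nonneg (pow_nonneg hy.1 n) (by linarith [hy.2]))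
      (J_nonneg h y hy.1 hy.2)
  have h2 : X ^ n * (1 - X) * J ρ = X ^ n * J ρ - X ^ (n + 1) * J ρ := by ring
  rw [h2, I_sub, ← M_eq, ← M_eq] at h1
  linarith

lemma M_hi (h : Good ρ) : 7 * M ρ 0 ≤ 24 * M ρ 2 := by
  have hH := I_parts h (C (1 / 48 : ℝ) * (X - C 5 * X ^ 2 + C 8 * X ^ 3 - C 4 * X ^ 4))
    (by simp) (by simp; norm_num)
    (by
      intro y hy
      simp only [eval_mul, eval_pow, eval_X, eval_sub, eval_add, eval_C]
      have h1 := hy.1
      have h2 : 0 ≤ 1 - y := by linarith [hy.2]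
      have h3 : (1 / 48 : ℝ) * (y - 5 * y ^ 2 + 8 * y ^ 3 - 4 * y ^ 4) =
        1 / 48 * (y * (1 - y) * (1 - 2 * y) ^ 2) := by ring
      rw [h3]
      positivity)
  have h2 : J ρ * derivative (derivative
      (C (1 / 48 : ℝ) * (X - C 5 * X ^ 2 + C 8 * X ^ 3 - C 4 * X ^ 4))) =
      X ^ 1 * J ρ - X ^ 2 * J ρ - C (5 / 24 : ℝ) * (X ^ 0 * J ρ) := by
    apply Polynomial.funext
    intro y
    simp only [derivative_mul, derivative_C, derivative_sub, derivative_add, derivative_X_pow,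
      derivative_X, derivative_one, eval_mul, eval_add, eval_sub, eval_pow, eval_X, eval_C,
      eval_one, eval_zero, eval_natCast, derivative_natCast, derivative_zero, Nat.cast_ofNat,
      Nat.add_one_sub_one, Nat.reduceSub, pow_one, pow_zero, eval_ofNat, derivative_ofNat]
    ring
  rw [h2, I_sub, I_sub, I_C_mul, ← M_eq, ← M_eq, ← M_eq] at hH
  have := M1 h
  linarith

lemma M_lo (h : Good ρ) : 3 * M ρ 2 ≤ M ρ 0 := by
  have hH := I_parts h (C (1 / 12 : ℝ) * (X ^ 2 - C 2 * X ^ 3 + X ^ 4)) (by simp)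
    (by simp; norm_num)
    (by
      intro y hy
      simp only [eval_mul, eval_pow, eval_X, eval_sub, eval_add, eval_C]
      have h3 : (1 / 12 : ℝ) * (y ^ 2 - 2 * y ^ 3 + y ^ 4) = 1 / 12 * (y * (1 - y)) ^ 2 := by ring
      rw [h3]
      positivity)
  have h2 : J ρ * derivative (derivative
      (C (1 / 12 : ℝ) * (X ^ 2 - C 2 * X ^ 3 + X ^ 4))) =
      C (1 / 6 : ℝ) * (X ^ 0 * J ρ) - (X ^ 1 * J ρ - X ^ 2 * J ρ) := by
    apply Polynomial.funext
    intro y
    simp only [derivative_mul, derivative_C, derivative_sub, derivative_add, derivative_X_pow,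
      derivative_X, derivative_one, eval_mul, eval_add, eval_sub, eval_pow, eval_X, eval_C,
      eval_one, eval_zero, eval_natCast, derivative_natCast, derivative_zero, Nat.cast_ofNat,
      Nat.add_one_sub_one, Nat.reduceSub, pow_one, pow_zero, eval_ofNat, derivative_ofNat]
    ring
  rw [h2, I_sub, I_sub, I_C_mul, ← M_eq, ← M_eq, ← M_eq] at hH
  have := M1 h
  linarith

end Mom

/-- PIECE MOM -/
theorem stMom : StMom := by
  intro ρ h
  exact ⟨Mom.M_pos h, Mom.M1 h, Mom.M_CS h, Mom.M_anti h, Mom.M_hi h, Mom.M_lo h⟩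

end Pool.Agent.R737.PK
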