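import Pool.Agent.R737.PK.Stm

/-!
# Peak polynomials with only real roots: the main argument
-/

set_option autoImplicit false

open Polynomial

namespace Pool.Agent.R737.PK

lemma desc_tail {m : ℕ} {L : List ℕ} (h : Desc (m :: L)) : Desc L :=
  ⟨(List.pairwise_cons.1 h.1).2, fun a ha => h.2 a (List.mem_cons_of_mem _ ha)⟩

lemma state_of (h1 : StStep) (h2 : StPure) (h3 : StGood) : ∀ (L : List ℕ) (m : ℕ), Desc (m :: L) →
    ∃ ρ, Rep m (pp (m :: L)) ρ ∧ Good ρ := by
  intro L
  induction L with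
  | nil =>
    intro m h
    have hm : 2 ≤ m := h.2 m (by simp)
    refine ⟨pure m, ?_, h3.2 m hm⟩
    have := h2 m (by omega)
    simpa [pp] using this
  | cons j L ih =>
    intro m h
    obtain ⟨ρ, hρ, hg⟩ := ih j (desc_tail h)
    have hjm : j + 2 ≤ m := (List.pairwise_cons.1 h.1).1 j (by simp)
    have h5 := h1 j _ ρ hρ hg.anti (m - j) (by omega)
    refine ⟨nxt j ρ (m - j), ?_, h3.1 j ρ hg (m - j) (by omega)⟩
    have h6 : j + (m - j) = m := by omega
    rw [h6] at h5
    simpa [pp] using h5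

/-- the decomposition of a set: a chain of gaps two on top -/
lemma decomp : ∀ (L : List ℕ) (m : ℕ), Desc (m :: L) → ∃ (j₀ k : ℕ) (L₁ : List ℕ),
    Desc (j₀ :: L₁) ∧ m = j₀ + 2 * k ∧ pp (m :: L) = chain (pp (j₀ :: L₁)) j₀ k ∧
    (∀ i, i ∈ m :: L ↔ i ∈ L₁ ∨ ∃ t, t ≤ k ∧ i = j₀ + 2 * t) ∧
    (L₁ = [] ∨ ∃ j L₂, L₁ = j :: L₂ ∧ j + 3 ≤ j₀) := by
  intro L
  induction L with
  | nil =>
    intro m h
    refine ⟨m, 0, [], h, by simp, rfl, ?_, Or.inl rfl⟩
    intro i
    constructor
    · intro hi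
      right
      exact ⟨0, le_refl _, by simpa using hi⟩
    · rintro (hi | ⟨t, ht, rfl⟩)
      · simp at hi
      · have : t = 0 := by omega
        subst this
        simp
  | cons j L ih =>
    intro m h
    have hjm : j + 2 ≤ m := (List.pairwise_cons.1 h.1).1 j (by simp)
    by_cases h2 : m = j + 2
    · obtain ⟨j₀, k, L₁, a1, a2, a3, a4, a5⟩ := ih j (desc_tail h)
      refine ⟨j₀, k + 1, L₁, a1, by omega, ?_, ?_, a5⟩
      · have e1 : pp (m :: j :: L) = stp (pp (j :: L)) j (m - j) := rfl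
        have e2 : m - j = 2 := by omega
        rw [e1, e2, a3]
        change _ = stp (chain (pp (j₀ :: L₁)) j₀ k) (j₀ + 2 * k) 2
        rw [← a2]
      · intro i
        rw [List.mem_cons, a4]
        constructor
        · rintro (rfl | hi | ⟨t, ht, rfl⟩)
          · right
            exact ⟨k + 1, le_refl _, by omega⟩
          · exact Or.inl hi
          · exact Or.inr ⟨t, by omega, rfl⟩
        · rintro (hi | ⟨t, ht, rfl⟩)
          · exact Or.inr (Or.inl hi)
          · rcases Nat.lt_or_ge k t with h3 | h3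
            · left
              omega
            · exact Or.inr (Or.inr ⟨t, h3, rfl⟩)
    · refine ⟨m, 0, j :: L, h, by simp, rfl, ?_, Or.inr ⟨j, L, rfl, by omega⟩⟩
      intro i
      rw [List.mem_cons]
      constructor
      · rintro (rfl | hi)
        · exact Or.inr ⟨0, le_refl _, by simp⟩
        · exact Or.inl hi
      · rintro (hi | ⟨t, ht, rfl⟩)
        · exact Or.inr hi
        · left
          omega

theorem stMain (h1 : StStep) (h2 : StPure) (h3 : StGood) (hA : StA) (hB : StB) (hLin : StLin)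
    (hC : StC) : StMain := by
  intro L hL hne hreal
  obtain ⟨m, L', rfl⟩ := List.exists_cons_of_ne_nil hne
  obtain ⟨j₀, k, L₁, a1, a2, a3, a4, a5⟩ := decomp L' m hL
  have hj₀ : 2 ≤ j₀ := a1.2 j₀ (by simp)
  rw [a3] at hreal ⊢
  have hk : k ≤ 4 := by
    by_contra hk
    obtain ⟨ρ, hρ, hg⟩ := state_of h1 h2 h3 L₁ j₀ a1
    exact hA j₀ _ ρ (by omega) hρ hg k (by omega) hreal
  rcases a5 with rfl | ⟨j, L₂, rfl, hj⟩
  · -- pure base
    have e0 : pp [j₀] = stp 1 0 j₀ := by simp [pp]
    rw [e0] at hreal ⊢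
    have hj4 : j₀ < 4 := by
      by_contra h4
      exact hB.2 j₀ (by omega) k hk hreal
    have hcases : j₀ = 2 ∨ j₀ = 3 := by omega
    have hlin : ∃ c : ℝ, c ≠ 0 ∧ stp 1 0 j₀ = lin c j₀ := by
      rcases hcases with rfl | rfl
      · exact ⟨1, one_ne_zero, hLin.1⟩
      · exact ⟨1 / 2, by norm_num, hLin.2.1⟩
    obtain ⟨c, hc, hlin⟩ := hlin
    rw [hlin] at hreal ⊢
    obtain ⟨c1, c2⟩ := hC c j₀ hc hj₀
    have hk1 : k ≤ 1 := by
      by_contra h
      exact c2 k (by omega) hk hreal
    refine ⟨c1 k hk1, ?_⟩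
    have hS : ∀ i, i ∈ (m :: L').toFinset ↔ ∃ t, t ≤ k ∧ i = j₀ + 2 * t := by
      intro i
      rw [List.mem_toFinset, a4]
      simp
    have hkc : k = 0 ∨ k = 1 := by omega
    rcases hkc with rfl | rfl
    · have : (m :: L').toFinset = {j₀} := by
        ext i
        rw [hS, Finset.mem_singleton]
        constructor
        · rintro ⟨t, ht, rfl⟩
          omega
        · rintro rfl
          exact ⟨0, le_refl _, by simp⟩
      rw [this]
      rcases hcases with rfl | rfl
      · exact Or.inl rfl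
      · exact Or.inr (Or.inr (Or.inl rfl))
    · have : (m :: L').toFinset = {j₀, j₀ + 2} := by
        ext i
        rw [hS, Finset.mem_insert, Finset.mem_singleton]
        constructor
        · rintro ⟨t, ht, rfl⟩
          omega
        · rintro (rfl | rfl)
          · exact ⟨0, by omega, by simp⟩
          · exact ⟨1, le_refl _, by simp⟩
      rw [this]
      rcases hcases with rfl | rfl
      · exact Or.inr (Or.inl rfl)
      · exact Or.inr (Or.inr (Or.inr (Or.inl rfl)))
  · -- a base with a gap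
    have hd : Desc (j :: L₂) := desc_tail a1
    have hj2 : 2 ≤ j := hd.2 j (by simp)
    obtain ⟨ρ, hρ, hg⟩ := state_of h1 h2 h3 L₂ j hd
    have e0 : pp (j₀ :: j :: L₂) = stp (pp (j :: L₂)) j (j₀ - j) := rfl
    have hg3 : j₀ - j = 3 := by
      by_contra h4
      have h5 := hB.1 j _ ρ (by omega) hρ hg (j₀ - j) (by omega) k hk
      have h6 : j + (j₀ - j) = j₀ := by omega
      rw [h6, ← e0] at h5
      exact h5 hreal
    have hj3 : j₀ = j + 3 := by omega
    obtain ⟨c, hc, hlin⟩ := hLin.2.2 j _ ρ (by omega) hρ hg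
    rw [e0, hg3, hlin] at hreal ⊢
    rw [← hj3] at hreal ⊢
    obtain ⟨c1, c2⟩ := hC c j₀ hc hj₀
    have hk1 : k ≤ 1 := by
      by_contra h
      exact c2 k (by omega) hk hreal
    refine ⟨c1 k hk1, ?_⟩
    have hS : ∀ i, i ∈ (m :: L').toFinset ↔ i ∈ j :: L₂ ∨ ∃ t, t ≤ k ∧ i = j₀ + 2 * t := by
      intro i
      rw [List.mem_toFinset, a4]
    have hle : ∀ i ∈ j :: L₂, i ≤ j := by
      intro i hi
      rcases List.mem_cons.1 hi with rfl | hi
      · exact le_refl _
      · have := (List.pairwise_cons.1 hd.1).1 i hi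
        omega
    have hkc : k = 0 ∨ k = 1 := by omega
    rcases hkc with rfl | rfl
    · refine Or.inr (Or.inr (Or.inr (Or.inr (Or.inl ⟨j, ?_, ?_, ?_⟩))))
      · rw [hS]
        exact Or.inl (by simp)
      · rw [hS]
        exact Or.inr ⟨0, le_refl _, by omega⟩
      · intro i hi
        rw [hS] at hi
        rcases hi with hi | ⟨t, ht, rfl⟩
        · exact Or.inl (hle i hi)
        · right
          omega
    · refine Or.inr (Or.inr (Or.inr (Or.inr (Or.inr ⟨j, ?_, ?_, ?_, ?_⟩))))
      · rw [hS]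
        exact Or.inl (by simp)
      · rw [hS]
        exact Or.inr ⟨0, by omega, by omega⟩
      · rw [hS]
        exact Or.inr ⟨1, le_refl _, by omega⟩
      · intro i hi
        rw [hS] at hi
        rcases hi with hi | ⟨t, ht, rfl⟩
        · exact Or.inl (hle i hi)
        · right
          omega

end Pool.Agent.R737.PK
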