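import Pool.Agent.R737.PK.Stm

/-! Piece PURE for MP_8cb80e_co. -/

set_option autoImplicit false

open Polynomial Finset

namespace Pool.Agent.R737.PK

namespace Pu

/-- the product of `z + i + 1` over `i < m`, `i ≠ l` -/
def EE (m l : ℕ) (z : ℝ) : ℝ := ∏ i ∈ range m, if i ≠ l then (z + i + 1) else 1

lemma EE_eq (m l : ℕ) (z : ℝ) : ∏ i ∈ (range m).erase l, (z + i + 1) = EE m l z := by
  unfold EE
  rw [← Finset.filter_ne', Finset.prod_filter]

lemma EE_succ (m l : ℕ) (z : ℝ) (h : l ≠ m) : EE (m + 1) l z = (z + m + 1) * EE m l z := by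
  unfold EE
  rw [prod_range_succ, if_pos (Ne.symm h), mul_comm]

lemma EE_succ' (m l : ℕ) (z : ℝ) : EE (m + 1) (l + 1) z = (z + 1) * EE m l (z + 1) := by
  unfold EE
  rw [prod_range_succ', if_pos (Ne.symm (Nat.succ_ne_zero l)), mul_comm]
  congr 1
  · simp
  · refine prod_congr rfl fun i _ => ?_
    by_cases h : i = l
    · rw [if_neg (by simpa using h), if_neg (by simpa using h)]
    · rw [if_pos (by simpa using h), if_pos h]; push_cast; ring

lemma EE_last (m : ℕ) (z : ℝ) : EE (m + 1) m z = ∏ i ∈ range m, (z + i + 1) := by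
  unfold EE
  rw [prod_range_succ, if_neg (by simp), mul_one]
  refine prod_congr rfl fun i hi => ?_
  rw [if_pos (mem_range.1 hi).ne]

/-- the functional -/
noncomputable def T (m : ℕ) (f : ℝ[X]) (z : ℝ) : ℝ := ∑ l ∈ range m, f.coeff l * EE m l z

lemma T_succ (m : ℕ) (f : ℝ[X]) (z : ℝ) (h : f.coeff m = 0) :
    T (m + 1) f z = (z + m + 1) * T m f z := by
  unfold T
  rw [sum_range_succ, h, zero_mul, add_zero, mul_sum]
  refine sum_congr rfl fun l hl => ?_
  rw [EE_succ m l z (mem_range.1 hl).ne]; ring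

lemma T_X (m : ℕ) (f : ℝ[X]) (z : ℝ) : T (m + 1) (X * f) z = (z + 1) * T m f (z + 1) := by
  unfold T
  rw [sum_range_succ', coeff_X_mul_zero, zero_mul, add_zero, mul_sum]
  refine sum_congr rfl fun l _ => ?_
  rw [coeff_X_mul, EE_succ']; ring

lemma T_sub (m : ℕ) (f g : ℝ[X]) (z : ℝ) : T m (f - g) z = T m f z - T m g z := by
  unfold T
  rw [← sum_sub_distrib]
  refine sum_congr rfl fun l _ => ?_
  rw [coeff_sub]; ring

lemma natDegree_one_sub (m : ℕ) : ((1 - X : ℝ[X]) ^ m).natDegree ≤ m := by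
  refine (natDegree_pow_le).trans ?_
  have : (1 - X : ℝ[X]).natDegree ≤ 1 := by
    refine (natDegree_sub_le _ _).trans ?_
    simp
  calc m * (1 - X : ℝ[X]).natDegree ≤ m * 1 := Nat.mul_le_mul_left m this
    _ = m := mul_one m

/-- the Beta integral identity -/
lemma beta (m : ℕ) (z : ℝ) : T (m + 1) ((1 - X) ^ m) z = m.factorial := by
  induction m generalizing z with
  | zero => simp [T, EE]
  | succ m ih =>
    have h1 : (1 - X : ℝ[X]) ^ (m + 1) = (1 - X) ^ m - X * (1 - X) ^ m := by ring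
    rw [h1, T_sub, T_X, ih, T_succ, ih, Nat.factorial_succ]
    · push_cast; ring
    · exact coeff_eq_zero_of_natDegree_lt (lt_of_le_of_lt (natDegree_one_sub m) (Nat.lt_succ_self m))

lemma T_pow (m : ℕ) (z : ℝ) : T (m + 1) (X ^ m) z = ∏ i ∈ range m, (z + i + 1) := by
  unfold T
  rw [sum_eq_single m]
  · rw [coeff_X_pow, if_pos rfl, one_mul, EE_last]
  · intro l _ hl
    rw [coeff_X_pow, if_neg hl, zero_mul]
  · intro h
    exact absurd (mem_range.2 (Nat.lt_succ_self m)) h

lemma eval_stp (g : ℕ) (x : ℝ) : (stp 1 0 (g + 1)).eval x =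
    (∏ i ∈ range g, (x - (i + 1))) / g.factorial - 1 := by
  induction g with
  | zero => simp [stp]
  | succ g ih =>
    rw [stp, eval_sub, eval_sub, ih]
    have h1 : (binX (0 + g + 1)).eval x = (∏ i ∈ range (g + 1), (x - i)) / (g + 1).factorial := by
      unfold binX
      rw [eval_mul, eval_C, eval_prod]
      simp only [eval_sub, eval_X, eval_C, zero_add]
      rw [div_eq_inv_mul]
    have hf : ((g.factorial : ℕ) : ℝ) ≠ 0 := by exact_mod_cast g.factorial_ne_zero
    have hg : ((g : ℝ) + 1) ≠ 0 := by positivity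
    simp only [eval_mul, eval_C, h1, eval_one, eval_ofNat]
    rw [Nat.factorial_succ, prod_range_succ' (fun i : ℕ => x - (i : ℝ)),
      prod_range_succ (fun i : ℕ => x - ((i : ℝ) + 1))]
    push_cast
    set Q := ∏ i ∈ range g, (x - ((i : ℝ) + 1))
    field_simp
    ring

end Pu

open Pu in
theorem stPure : StPure := by
  intro m hm
  obtain ⟨g, rfl⟩ : ∃ g, m = g + 1 := ⟨m - 1, by omega⟩
  refine ⟨?_, fun z => ?_⟩
  · unfold pure
    rw [Nat.add_sub_cancel]
    refine lt_of_le_of_lt (natDegree_C_mul_le _ _) ?_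
    refine lt_of_le_of_lt (natDegree_sub_le _ _) ?_
    rw [natDegree_X_pow]
    exact lt_of_le_of_lt (max_le le_rfl (natDegree_one_sub g)) (Nat.lt_succ_self g)
  · have h1 : ∑ l ∈ range (g + 1), (pure (g + 1)).coeff l *
        ∏ i ∈ (range (g + 1)).erase l, (z + i + 1) =
        ((g + 1 : ℕ) : ℝ) * (T (g + 1) (X ^ g) z - T (g + 1) ((1 - X) ^ g) z) := by
      rw [← T_sub]
      unfold T
      rw [mul_sum]
      refine sum_congr rfl fun l _ => ?_
      rw [EE_eq]
      unfold pure
      rw [coeff_C_mul, Nat.add_sub_cancel]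
      ring
    rw [h1, T_pow, beta, eval_stp]
    have hf : ((g.factorial : ℕ) : ℝ) ≠ 0 := by exact_mod_cast g.factorial_ne_zero
    have h2 : ∏ i ∈ range g, (((g + 1 : ℕ) : ℝ) + z - ((i : ℝ) + 1)) =
        ∏ i ∈ range g, (z + i + 1) := by
      rw [← prod_range_reflect]
      refine prod_congr rfl fun i hi => ?_
      have hi' := mem_range.1 hi
      have : ((g - 1 - i : ℕ) : ℝ) = (g : ℝ) - 1 - i := by
        rw [Nat.cast_sub (by omega), Nat.cast_sub (by omega)]; simp
      rw [this]; push_cast; ring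
    rw [h2, Nat.factorial_succ]
    push_cast
    field_simp

end Pool.Agent.R737.PK

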