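import Pool.Agent.R737.PK.Stm

/-!
# Piece REC: the recursion of Billey, Burdzy and Sagan
-/

set_option autoImplicit false

namespace Pool.Agent.R737.PK

namespace REC

/-- counting with a free and equivariant map -/
theorem card_torsor {X G : Type} [Group G] (Φ : X → G) (act : X → G → X)
    (h1 : ∀ x g, Φ (act x g) = Φ x * g) (h2 : ∀ x g h, act (act x g) h = act x (g * h))
    (h3 : ∀ x, act x 1 = x) (R : G → Prop) :
    Nat.card {x // R (Φ x)} = Nat.card {x // Φ x = 1} * Nat.card {g // R g} := by
  rw [← Nat.card_prod]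
  refine Nat.card_congr
    { toFun := fun x => (⟨act x.1 (Φ x.1)⁻¹, by rw [h1, mul_inv_cancel]⟩, ⟨Φ x.1, x.2⟩)
      invFun := fun y => ⟨act y.1.1 y.2.1, by rw [h1, y.1.2, one_mul]; exact y.2.2⟩
      left_inv := fun x => by
        apply Subtype.ext
        simp only [h2, inv_mul_cancel, h3]
      right_inv := fun y => by
        apply Prod.ext
        · apply Subtype.ext
          simp only [h1, y.1.2, one_mul, h2, mul_inv_cancel, h3]
        · apply Subtype.ext
          simp only [h1, y.1.2, one_mul] }

/-- the pattern of an injective word -/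
noncomputable def pat {a n : ℕ} (f : Fin a → Fin n) : Equiv.Perm (Fin a) := (Tuple.sort f)⁻¹

theorem pat_lt {a n : ℕ} (f : Fin a → Fin n) (hf : Function.Injective f) (i j : Fin a) :
    pat f i < pat f j ↔ f i < f j := by
  have hm : StrictMono (f ∘ Tuple.sort f) :=
    (Tuple.monotone_sort f).strictMono_of_injective (hf.comp (Tuple.sort f).injective)
  have := hm.lt_iff_lt (a := pat f i) (b := pat f j)
  rw [← this]
  simp [pat]

theorem perm_unique {a : ℕ} (σ τ : Equiv.Perm (Fin a)) (h : ∀ i j, σ i < σ j ↔ τ i < τ j) :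
    σ = τ := by
  let e : Fin a ≃o Fin a :=
    { toEquiv := σ.symm.trans τ
      map_rel_iff' := by
        intro x y
        have := h (σ.symm y) (σ.symm x)
        simp only [Equiv.apply_symm_apply] at this
        simp only [Equiv.trans_apply]
        rw [← not_lt, ← this, not_lt] }
  have he : e = OrderIso.refl _ := Subsingleton.elim _ _
  ext i
  have : e (σ i) = σ i := by rw [he]; rfl
  have h2 : e (σ i) = τ i := by
    change (σ.symm.trans τ) (σ i) = τ i
    simp
  rw [← this, h2]

theorem pat_comp {a n : ℕ} (f : Fin a → Fin n) (hf : Function.Injective f)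
    (g : Equiv.Perm (Fin a)) : pat (f ∘ g) = pat f * g := by
  apply perm_unique
  intro i j
  rw [pat_lt _ (hf.comp g.injective)]
  simp only [Equiv.Perm.mul_apply, Function.comp]
  rw [pat_lt _ hf]

/-- the two patterns -/
noncomputable def Phi {a b : ℕ} (π : Equiv.Perm (Fin (a + b))) :
    Equiv.Perm (Fin a) × Equiv.Perm (Fin b) :=
  (pat (fun i => π (Fin.castAdd b i)), pat (fun i => π (Fin.natAdd a i)))

/-- the block permutation -/
def blk {a b : ℕ} (g : Equiv.Perm (Fin a) × Equiv.Perm (Fin b)) : Equiv.Perm (Fin (a + b)) :=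
  finSumFinEquiv.symm.trans ((Equiv.sumCongr g.1 g.2).trans finSumFinEquiv)

theorem blk_left {a b : ℕ} (g : Equiv.Perm (Fin a) × Equiv.Perm (Fin b)) (i : Fin a) :
    blk g (Fin.castAdd b i) = Fin.castAdd b (g.1 i) := by
  simp [blk]

theorem blk_right {a b : ℕ} (g : Equiv.Perm (Fin a) × Equiv.Perm (Fin b)) (i : Fin b) :
    blk g (Fin.natAdd a i) = Fin.natAdd a (g.2 i) := by
  simp [blk]

theorem blk_one {a b : ℕ} : blk (1 : Equiv.Perm (Fin a) × Equiv.Perm (Fin b)) = 1 := by
  ext i
  refine Fin.addCases (fun i => ?_) (fun i => ?_) i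
  · rw [blk_left]; rfl
  · rw [blk_right]; rfl

theorem blk_mul {a b : ℕ} (g h : Equiv.Perm (Fin a) × Equiv.Perm (Fin b)) :
    blk (g * h) = blk g * blk h := by
  ext i
  refine Fin.addCases (fun i => ?_) (fun i => ?_) i
  · rw [Equiv.Perm.mul_apply, blk_left, blk_left, blk_left]; rfl
  · rw [Equiv.Perm.mul_apply, blk_right, blk_right, blk_right]; rfl

theorem injL {a b : ℕ} (π : Equiv.Perm (Fin (a + b))) :
    Function.Injective (fun i => π (Fin.castAdd b i)) :=
  π.injective.comp (Fin.castAdd_injective a b)

theorem injR {a b : ℕ} (π : Equiv.Perm (Fin (a + b))) :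
    Function.Injective (fun i => π (Fin.natAdd a i)) :=
  π.injective.comp (Fin.natAdd_injective b a)

theorem Phi_mul {a b : ℕ} (π : Equiv.Perm (Fin (a + b)))
    (g : Equiv.Perm (Fin a) × Equiv.Perm (Fin b)) : Phi (π * blk g) = Phi π * g := by
  apply Prod.ext
  · change pat (fun i => (π * blk g) (Fin.castAdd b i)) = pat (fun i => π (Fin.castAdd b i)) * g.1
    rw [← pat_comp _ (injL π)]
    congr 1
    funext i
    simp only [Equiv.Perm.mul_apply, Function.comp, blk_left]
  · change pat (fun i => (π * blk g) (Fin.natAdd a i)) = pat (fun i => π (Fin.natAdd a i)) * g.2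
    rw [← pat_comp _ (injR π)]
    congr 1
    funext i
    simp only [Equiv.Perm.mul_apply, Function.comp, blk_right]

/-- counting permutations by their two patterns -/
theorem card_Phi (a b : ℕ) (R : Equiv.Perm (Fin a) × Equiv.Perm (Fin b) → Prop) :
    Nat.card {π : Equiv.Perm (Fin (a + b)) // R (Phi π)} =
      (a + b).choose a * Nat.card {g // R g} := by
  have hA := fun R => card_torsor (Phi (a := a) (b := b)) (fun π g => π * blk g)
    (fun π g => Phi_mul π g) (fun π g h => by rw [blk_mul, mul_assoc])
    (fun π => by rw [blk_one, mul_one]) R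
  rw [hA R]
  congr 1
  have h1 := hA (fun _ => True)
  have e1 : Nat.card {π : Equiv.Perm (Fin (a + b)) // True} = (a + b).factorial := by
    rw [Nat.card_congr (Equiv.subtypeUnivEquiv (fun _ => trivial))]
    rw [Nat.card_eq_fintype_card, Fintype.card_perm, Fintype.card_fin]
  have e2 : Nat.card {g : Equiv.Perm (Fin a) × Equiv.Perm (Fin b) // True} =
      a.factorial * b.factorial := by
    rw [Nat.card_congr (Equiv.subtypeUnivEquiv (fun _ => trivial))]
    rw [Nat.card_eq_fintype_card, Fintype.card_prod, Fintype.card_perm, Fintype.card_fin,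
      Fintype.card_perm, Fintype.card_fin]
  rw [e1, e2] at h1
  have h3 : (a + b).choose a * a.factorial * b.factorial = (a + b).factorial := by
    have := Nat.choose_mul_factorial_mul_factorial (Nat.le_add_right a b)
    rwa [Nat.add_sub_cancel_left] at this
  rw [← h3, mul_assoc] at h1
  exact (Nat.eq_of_mul_eq_mul_right (Nat.mul_pos a.factorial_pos b.factorial_pos) h1).symm

theorem card_three {X : Type} [Finite X] (P A B C : X → Prop)
    (h : ∀ x, P x ↔ (A x ∨ B x) ∨ C x) (hAB : ∀ x, A x → B x → False)
    (hAC : ∀ x, A x → C x → False) (hBC : ∀ x, B x → C x → False) :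
    Nat.card {x // P x} = Nat.card {x // A x} + Nat.card {x // B x} + Nat.card {x // C x} := by
  classical
  haveI := Fintype.ofFinite X
  have e : ∀ P : X → Prop, Nat.card {π // P π} = (Finset.univ.filter P).card := by
    intro P
    rw [Nat.card_eq_fintype_card, Fintype.card_subtype]
  rw [e P, e A, e B, e C]
  have hset : Finset.univ.filter P = (Finset.univ.filter A ∪ Finset.univ.filter B) ∪
      Finset.univ.filter C := by
    ext π
    rw [Finset.mem_union, Finset.mem_union, Finset.mem_filter, Finset.mem_filter,
      Finset.mem_filter, Finset.mem_filter]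
    simp only [Finset.mem_univ, true_and]
    exact h π
  rw [hset, Finset.card_union_of_disjoint, Finset.card_union_of_disjoint]
  · rw [Finset.disjoint_filter]
    intro π _ hA hB
    exact hAB π hA hB
  · rw [Finset.disjoint_union_left, Finset.disjoint_filter, Finset.disjoint_filter]
    exact ⟨fun π _ hA hB => hAC π hA hB, fun π _ hA hB => hBC π hA hB⟩

theorem peak_left {a b : ℕ} (π : Equiv.Perm (Fin (a + b))) (i : ℕ) (hi : i < a) :
    IsPeak (Phi π).1 i ↔ IsPeak π i := by
  have key : ∀ x y : Fin a, (Phi π).1 x < (Phi π).1 y ↔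
      π (Fin.castAdd b x) < π (Fin.castAdd b y) := fun x y => pat_lt _ (injL π) x y
  unfold IsPeak
  constructor
  · rintro ⟨h1, h2, h3, h4⟩
    exact ⟨h1, by omega, (key _ _).1 h3, (key _ _).1 h4⟩
  · rintro ⟨h1, h2, h3, h4⟩
    exact ⟨h1, hi, (key ⟨i - 2, by omega⟩ ⟨i - 1, by omega⟩).2 h3,
      (key ⟨i, hi⟩ ⟨i - 1, by omega⟩).2 h4⟩

theorem peak_right {a b : ℕ} (π : Equiv.Perm (Fin (a + b))) (i : ℕ) (hi : 1 < i) :
    IsPeak (Phi π).2 i ↔ IsPeak π (a + i) := by
  have key : ∀ x y : Fin b, (Phi π).2 x < (Phi π).2 y ↔
      π (Fin.natAdd a x) < π (Fin.natAdd a y) := fun x y => pat_lt _ (injR π) x y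
  have e2 : ∀ (h : i - 2 < b) (h' : a + i - 2 < a + b),
      Fin.natAdd a ⟨i - 2, h⟩ = ⟨a + i - 2, h'⟩ := by
    intro h h'; apply Fin.ext; simp; omega
  have e1 : ∀ (h : i - 1 < b) (h' : a + i - 1 < a + b),
      Fin.natAdd a ⟨i - 1, h⟩ = ⟨a + i - 1, h'⟩ := by
    intro h h'; apply Fin.ext; simp; omega
  have e0 : ∀ (h : i < b) (h' : a + i < a + b),
      Fin.natAdd a ⟨i, h⟩ = ⟨a + i, h'⟩ := by
    intro h h'; apply Fin.ext; simp
  unfold IsPeak
  constructor
  · rintro ⟨h1, h2, h3, h4⟩
    refine ⟨by omega, by omega, ?_, ?_⟩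
    · have := (key _ _).1 h3
      rw [e2 _ (by omega), e1 _ (by omega)] at this
      exact this
    · have := (key _ _).1 h4
      rw [e0 _ (by omega), e1 _ (by omega)] at this
      exact this
  · rintro ⟨h1, h2, h3, h4⟩
    refine ⟨hi, by omega, (key _ _).2 ?_, (key _ _).2 ?_⟩
    · rw [e2 _ (by omega), e1 _ (by omega)]
      exact h3
    · rw [e0 _ (by omega), e1 _ (by omega)]
      exact h4

theorem peak_adj {n : ℕ} (π : Equiv.Perm (Fin n)) (i : ℕ) (h1 : IsPeak π i)
    (h2 : IsPeak π (i + 1)) : False := by
  obtain ⟨a1, a2, a3, a4⟩ := h1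
  obtain ⟨b1, b2, b3, b4⟩ := h2
  have e1 : (⟨i + 1 - 2, by omega⟩ : Fin n) = ⟨i - 1, by omega⟩ := Fin.ext (by simp)
  have e2 : (⟨i + 1 - 1, by omega⟩ : Fin n) = ⟨i, by omega⟩ := Fin.ext (by simp)
  rw [e1, e2] at b3
  exact absurd (lt_trans a4 b3) (lt_irrefl _)

/-- the permutations with prescribed peak sets of the two patterns -/
theorem split_iff {a b : ℕ} (S : Finset ℕ) (ha : 1 ≤ a) (hS : ∀ i ∈ S, 2 ≤ i ∧ i < a)
    (π : Equiv.Perm (Fin (a + b))) :
    ((∀ i, IsPeak (Phi π).1 i ↔ i ∈ S) ∧ (∀ i, IsPeak (Phi π).2 i ↔ i ∈ (∅ : Finset ℕ))) ↔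
      ((∀ i, IsPeak π i ↔ i ∈ S) ∨ (∀ i, IsPeak π i ↔ i ∈ insert a S)) ∨
        (∀ i, IsPeak π i ↔ i ∈ insert (a + 1) S) := by
  constructor
  · rintro ⟨hl, hr⟩
    have hlow : ∀ i, i < a → (IsPeak π i ↔ i ∈ S) := fun i hi => by
      rw [← peak_left π i hi, hl]
    have hhigh : ∀ i, a + 1 < i → ¬ IsPeak π i := by
      intro i hi hp
      have := (peak_right π (i - a) (by omega)).2 (by
        rw [Nat.add_sub_cancel' (by omega)]; exact hp)
      rw [hr] at this
      simp at this
    have hni : ∀ i, a ≤ i → i ∉ S := fun i hi h => by have := (hS i h).2; omega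
    by_cases h0 : IsPeak π a
    · have h1 : ¬ IsPeak π (a + 1) := fun h => peak_adj π a h0 h
      left; right
      intro i
      rw [Finset.mem_insert]
      rcases lt_trichotomy i a with h | h | h
      · rw [hlow i h]
        constructor
        · intro h; exact Or.inr h
        · rintro (h' | h')
          · omega
          · exact h'
      · subst h
        exact ⟨fun _ => Or.inl rfl, fun _ => h0⟩
      · constructor
        · intro hp
          exfalso
          rcases Nat.lt_or_ge (a + 1) i with h' | h'
          · exact hhigh i h' hp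
          · have : i = a + 1 := by omega
            subst this
            exact h1 hp
        · rintro (h' | h')
          · omega
          · exact absurd h' (hni i (by omega))
    · by_cases h1 : IsPeak π (a + 1)
      · right
        intro i
        rw [Finset.mem_insert]
        rcases Nat.lt_or_ge i a with h | h
        · rw [hlow i h]
          constructor
          · intro h; exact Or.inr h
          · rintro (h' | h')
            · omega
            · exact h'
        · constructor
          · intro hp
            left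
            by_contra hne
            rcases Nat.lt_or_ge (a + 1) i with h' | h'
            · exact hhigh i h' hp
            · have : i = a := by omega
              subst this
              exact h0 hp
          · rintro (h' | h')
            · rw [h']; exact h1
            · exact absurd h' (hni i h)
      · left; left
        intro i
        rcases Nat.lt_or_ge i a with h | h
        · exact hlow i h
        · constructor
          · intro hp
            exfalso
            rcases Nat.lt_or_ge (a + 1) i with h' | h'
            · exact hhigh i h' hp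
            · have : i = a ∨ i = a + 1 := by omega
              rcases this with rfl | rfl
              · exact h0 hp
              · exact h1 hp
          · intro h'
            exact absurd h' (hni i h)
  · intro hyp
    have hlow : ∀ i, i < a → (IsPeak π i ↔ i ∈ S) := by
      intro i hi
      rcases hyp with (h | h) | h
      · exact h i
      · rw [h i, Finset.mem_insert]
        exact ⟨fun h => h.resolve_left (by omega), fun h => Or.inr h⟩
      · rw [h i, Finset.mem_insert]
        exact ⟨fun h => h.resolve_left (by omega), fun h => Or.inr h⟩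
    have hhigh : ∀ i, a + 1 < i → ¬ IsPeak π i := by
      intro i hi hp
      rcases hyp with (h | h) | h
      · have := (hS i ((h i).1 hp)).2
        omega
      · rw [h i, Finset.mem_insert] at hp
        rcases hp with hp | hp
        · omega
        · have := (hS i hp).2
          omega
      · rw [h i, Finset.mem_insert] at hp
        rcases hp with hp | hp
        · omega
        · have := (hS i hp).2
          omega
    constructor
    · intro i
      rcases Nat.lt_or_ge i a with h | h
      · rw [peak_left π i h, hlow i h]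
      · constructor
        · rintro ⟨_, h2, _⟩
          omega
        · intro h'
          have := (hS i h').2
          omega
    · intro i
      constructor
      · intro hp
        have h1 : 1 < i := hp.1
        rw [peak_right π i h1] at hp
        exact absurd hp (hhigh _ (by omega))
      · intro h; simp at h

end REC

open REC in
theorem rec_thm : StEmp → StRec := by
  classical
  intro hE S m hm hS n hn
  obtain ⟨a, rfl⟩ : ∃ a, m = a + 1 := ⟨m - 1, by omega⟩
  obtain ⟨b, rfl⟩ : ∃ b, n = a + b := ⟨n - a, by omega⟩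
  have hS' : ∀ i ∈ S, 2 ≤ i ∧ i < a := fun i hi => ⟨(hS i hi).1, by have := (hS i hi).2; omega⟩
  have h1 := card_Phi a b (fun g => (∀ i, IsPeak g.1 i ↔ i ∈ S) ∧
    (∀ i, IsPeak g.2 i ↔ i ∈ (∅ : Finset ℕ)))
  have h2 : Nat.card {g : Equiv.Perm (Fin a) × Equiv.Perm (Fin b) //
      (∀ i, IsPeak g.1 i ↔ i ∈ S) ∧ (∀ i, IsPeak g.2 i ↔ i ∈ (∅ : Finset ℕ))} =
      count S a * count ∅ b := by
    unfold count
    rw [← Nat.card_prod]
    exact Nat.card_congr
      { toFun := fun g => (⟨g.1.1, g.2.1⟩, ⟨g.1.2, g.2.2⟩)
        invFun := fun g => ⟨(g.1.1, g.2.1), g.1.2, g.2.2⟩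
        left_inv := fun g => rfl
        right_inv := fun g => rfl }
  have h3 : Nat.card {π : Equiv.Perm (Fin (a + b)) // (∀ i, IsPeak (Phi π).1 i ↔ i ∈ S) ∧
      (∀ i, IsPeak (Phi π).2 i ↔ i ∈ (∅ : Finset ℕ))} =
      count S (a + b) + count (insert a S) (a + b) + count (insert (a + 1) S) (a + b) := by
    have ha : a ∉ S := fun h => by have := (hS' a h).2; omega
    have ha1 : a + 1 ∉ S := fun h => by have := (hS' (a + 1) h).2; omega
    unfold count
    apply card_three
    · intro π
      exact split_iff S (by omega) hS' π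
    · intro π hA hB
      have := (hB a).2 (Finset.mem_insert_self _ _)
      exact ha ((hA a).1 this)
    · intro π hA hB
      have := (hB (a + 1)).2 (Finset.mem_insert_self _ _)
      exact ha1 ((hA (a + 1)).1 this)
    · intro π hA hB
      have := (hB (a + 1)).2 (Finset.mem_insert_self _ _)
      have := (hA (a + 1)).1 this
      rw [Finset.mem_insert] at this
      rcases this with h | h
      · omega
      · exact ha1 h
  rw [h3, h2, hE b (by omega)] at h1
  rw [Nat.add_sub_cancel, h1, ← mul_assoc]
  congr 2
  omega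

end Pool.Agent.R737.PK
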