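import Pool.Agent.R737.PK.Defs

/-!
# Peak polynomials with only real roots: statements of the pieces
-/

set_option autoImplicit false

open Polynomial

namespace Pool.Agent.R737.PK

/-! ## Combinatorics -/

/-- PIECE REC -/
def StRec : Prop := ∀ (S : Finset ℕ) (m : ℕ), 2 ≤ m → (∀ i ∈ S, 2 ≤ i ∧ i + 2 ≤ m) →
  ∀ n, m ≤ n → count S n + count (insert (m - 1) S) n + count (insert m S) n =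
    n.choose (m - 1) * count S (m - 1) * 2 ^ (n - m)

/-- PIECE EMP -/
def StEmp : Prop := ∀ n, 1 ≤ n → count ∅ n = 2 ^ (n - 1)

/-- PIECE ADM -/
def StAdm : Prop :=
  (∀ (S : Finset ℕ) (n : ℕ), count S n ≠ 0 → ∀ i ∈ S, 2 ≤ i ∧ i < n ∧ i + 1 ∉ S) ∧
  ∀ S : Finset ℕ, (∀ i ∈ S, 2 ≤ i ∧ i + 1 ∉ S) → ∃ L, Desc L ∧ L.toFinset = S

/-- PIECE COMB (may assume `StRec`, `StEmp`, `StAdm`) -/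
def StComb : Prop := ∀ L, Desc L → ∀ n, 1 ≤ n → L.headD 0 ≤ n →
  (count L.toFinset n : ℝ) = (pp L).eval (n : ℝ) * 2 ^ n / 2 ^ (L.length + 1)

/-! ## The representation -/

/-- PIECE STEP -/
def StStep : Prop := ∀ (j : ℕ) (P ρ : ℝ[X]), Rep j P ρ → (∀ s, ρ.eval (1 - s) = - ρ.eval s) →
  ∀ g, 1 ≤ g → Rep (j + g) (stp P j g) (nxt j ρ g)

/-- PIECE PURE -/
def StPure : Prop := ∀ m, 1 ≤ m → Rep m (stp 1 0 m) (pure m)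

/-- PIECE GOOD -/
def StGood : Prop := (∀ j ρ, Good ρ → ∀ g, 2 ≤ g → Good (nxt j ρ g)) ∧ ∀ m, 2 ≤ m → Good (pure m)

/-- PIECE MOM -/
def StMom : Prop := ∀ ρ, Good ρ → (∀ n, 0 < M ρ n) ∧ 2 * M ρ 1 = M ρ 0 ∧
  (∀ n, M ρ (n + 1) ^ 2 ≤ M ρ n * M ρ (n + 2)) ∧ (∀ n, M ρ (n + 1) ≤ M ρ n) ∧
  7 * M ρ 0 ≤ 24 * M ρ 2 ∧ 3 * M ρ 2 ≤ M ρ 0

/-- PIECE REAL -/
def StReal : Prop := ∀ ρ, Good ρ → (∀ z, 0 < z → 0 < K ρ z) ∧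
  (∀ z, 0 < z → z ≤ 1 → M ρ 0 ≤ K ρ z) ∧
  (∀ z, 1 ≤ z → z ≤ 2 → M ρ 1 + (2 - z) * (M ρ 1 - M ρ 2) ≤ K ρ z) ∧
  ∀ n : ℕ, K ρ (n + 1) = M ρ n

/-- PIECE EVAL -/
def StEval : Prop := ∀ (m : ℕ) (P ρ : ℝ[X]), Rep m P ρ → ∀ z : ℝ, 0 < z →
  P.eval (m + z) = bin m z * (z * K ρ z)

/-- PIECE GAP2 -/
def StGap2 : Prop := ∀ j ρ, Good ρ → 10 * M (nxt j ρ 2) 2 ≤ 3 * M (nxt j ρ 2) 0

/-! ## Chains -/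

/-- the values to the right of the largest element -/
noncomputable def bet (P₀ : ℝ[X]) (j₀ l : ℕ) : ℝ := (chain P₀ j₀ l).eval ((j₀ + 2 * l + 1 : ℕ) : ℝ)

/-- the mean of `y (1 - y)` -/
noncomputable def ww (ρ : ℝ[X]) : ℝ := (M ρ 1 - M ρ 2) / M ρ 0

/-- PIECE VAL (may assume `StStep`, `StGood`, `StMom`, `StReal`, `StEval`, `StGap2`) -/
def StVal : Prop := ∀ (j₀ : ℕ) (P₀ ρ₀ : ℝ[X]), 1 ≤ j₀ → Rep j₀ P₀ ρ₀ → Good ρ₀ →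
  (∀ l, Rep (j₀ + 2 * l) (chain P₀ j₀ l) (chainR ρ₀ j₀ l) ∧ Good (chainR ρ₀ j₀ l)) ∧
  (∀ l, 0 < bet P₀ j₀ l) ∧
  (∀ l : ℕ, bet P₀ j₀ (l + 1) = bet P₀ j₀ l *
    (((j₀ : ℝ) + 2 * l + 2) * ((j₀ : ℝ) + 2 * l + 3) * ww (chainR ρ₀ j₀ l))) ∧
  (∀ l, 0 < ww (chainR ρ₀ j₀ l) ∧ ww (chainR ρ₀ j₀ l) ≤ 5 / 24) ∧
  (∀ l, 1 / 5 ≤ ww (chainR ρ₀ j₀ (l + 1))) ∧
  (∀ k i : ℕ, i < k → (chain P₀ j₀ k).eval ((j₀ : ℝ) + 2 * k - 1 - 2 * i) =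
    (-1) ^ (i + 1) * 2 ^ i * bet P₀ j₀ (k - i - 1)) ∧
  (∀ k i : ℕ, i ≤ k → (chain P₀ j₀ k).eval ((j₀ : ℝ) + 2 * i) = 0) ∧
  ∀ k n : ℕ, n < j₀ → (chain P₀ j₀ k).eval (n : ℝ) = (-2) ^ k * P₀.eval (n : ℝ)

/-- PIECE Z (may assume `StVal`, `StMom`, `StReal`, `StEval`) -/
def StZ : Prop := ∀ (j₀ : ℕ) (P₀ ρ₀ : ℝ[X]), 1 ≤ j₀ → Rep j₀ P₀ ρ₀ → Good ρ₀ → ∀ k : ℕ, 4 ≤ k →
  (∀ x : ℝ, (j₀ : ℝ) + 2 * k - 7 < x → (chain P₀ j₀ k).eval x = 0 →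
    ∃ i : ℕ, i ≤ 3 ∧ x = (j₀ : ℝ) + 2 * k - 2 * i) ∧
  ∀ i : ℕ, i ≤ 3 → (derivative (chain P₀ j₀ k)).eval ((j₀ : ℝ) + 2 * k - 2 * i) ≠ 0

/-- the product of the distances of `m - 1 - 2 i` from `m, m - 2, …, m - 2 k` -/
noncomputable def KK (k i : ℕ) : ℝ := ∏ l ∈ Finset.range (k + 1), |2 * (l : ℝ) - 2 * i - 1|

/-- PIECE RR3 -/
def StRR3 : Prop := ∀ (p : ℝ[X]) (m : ℝ) (k : ℕ), 3 ≤ k → p ≠ 0 → RealRooted p →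
  (∀ i : ℕ, i ≤ k → p.eval (m - 2 * i) = 0) →
  (∀ x : ℝ, m - 7 < x → p.eval x = 0 → ∃ i : ℕ, i ≤ 3 ∧ x = m - 2 * i) →
  (∀ i : ℕ, i ≤ 3 → (derivative p).eval (m - 2 * i) ≠ 0) →
  (|p.eval (m - 3)| / KK k 1) ^ 3 * (|p.eval (m - 7)| / KK k 3) ≤
    (|p.eval (m - 1)| / KK k 0) * (|p.eval (m - 5)| / KK k 2) ^ 3

/-- PIECE RR2 -/
def StRR2 : Prop := ∀ (p : ℝ[X]) (n : ℝ) (T : Finset ℝ), p ≠ 0 → RealRooted p →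
  (∀ a ∈ T, p.eval a = 0) → (∀ a ∈ T, a ≤ n - 2 ∨ n + 2 ≤ a) →
  (∀ x : ℝ, n - 1 < x → x < n + 1 → p.eval x ≠ 0) →
  (|p.eval (n - 1)| / ∏ a ∈ T, |n - 1 - a|) * (|p.eval (n + 1)| / ∏ a ∈ T, |n + 1 - a|) ≤
    (|p.eval n| / ∏ a ∈ T, |n - a|) ^ 2

/-- PIECE A (may assume `StVal`, `StZ`, `StRR3`) -/
def StA : Prop := ∀ (j₀ : ℕ) (P₀ ρ₀ : ℝ[X]), 1 ≤ j₀ → Rep j₀ P₀ ρ₀ → Good ρ₀ → ∀ k : ℕ, 5 ≤ k →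
  ¬ RealRooted (chain P₀ j₀ k)

/-! ## Bases with a gap at least four -/

/-- the properties of the densities after a gap at least four -/
structure Base (ρ : ℝ[X]) : Prop where
  good : Good ρ
  three : 3 * ρ.eval 1 ≤ (derivative ρ).eval 0
  valley : ∀ s : ℝ, 0 ≤ s → s ≤ 1 → (derivative ρ).eval s ≤ (derivative ρ).eval 0
  convex : ∀ s : ℝ, 1 / 2 ≤ s → s ≤ 1 → ρ.eval s ≤ (2 * s - 1) * ρ.eval 1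

/-- PIECE BASE (may assume `StGood`, `StMom`) -/
def StBase : Prop := (∀ j ρ, Good ρ → ∀ g, 4 ≤ g → Base (nxt j ρ g)) ∧ ∀ m, 4 ≤ m → Base (pure m)

/-- PIECE BZ (may assume `StVal`, `StMom`, `StReal`, `StEval`) -/
def StBz : Prop := ∀ (j₀ : ℕ) (P₀ ρ₀ : ℝ[X]), 4 ≤ j₀ → Rep j₀ P₀ ρ₀ → Base ρ₀ →
  P₀.eval ((j₀ : ℝ) - 2) ≠ 0 → ∀ k : ℕ, k ≤ 4 → ∀ x : ℝ, (j₀ : ℝ) - 3 < x → x < (j₀ : ℝ) - 1 →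
  (chain P₀ j₀ k).eval x ≠ 0

/-- PIECE INT (may assume `StStep`, `StMom`, `StReal`, `StEval`) -/
def StInt : Prop := (∀ (j : ℕ) (P ρ : ℝ[X]), 1 ≤ j → Rep j P ρ → Good ρ →
    (∀ i : ℕ, 1 ≤ i → 0 < P.eval ((j : ℝ) + i)) ∧ P.eval (j : ℝ) = 0 ∧
    (∀ g i : ℕ, 2 ≤ g → 1 ≤ i → i < g → (stp P j g).eval ((j : ℝ) + i) = - P.eval ((j : ℝ) + i)) ∧
    (∀ g : ℕ, 2 ≤ g → (stp P j g).eval (j : ℝ) = 0) ∧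
    ∀ g : ℕ, 4 ≤ g → 3 * (((g : ℝ) - 1) * (g - 3)) * P.eval ((j : ℝ) + g - 2) ^ 2 <
      4 * ((g : ℝ) - 2) ^ 2 * (P.eval ((j : ℝ) + g - 1) * P.eval ((j : ℝ) + g - 3))) ∧
  ∀ m i : ℕ, 1 ≤ i → i < m → (stp 1 0 m).eval (i : ℝ) = - 1

/-- PIECE B (may assume `StVal`, `StRR2`, `StBz`, `StInt`, `StBase`, `StStep`, `StPure`, `StGood`) -/
def StB : Prop := (∀ (j : ℕ) (P ρ : ℝ[X]), 1 ≤ j → Rep j P ρ → Good ρ → ∀ g, 4 ≤ g → ∀ k, k ≤ 4 →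
    ¬ RealRooted (chain (stp P j g) (j + g) k)) ∧
  ∀ m, 4 ≤ m → ∀ k, k ≤ 4 → ¬ RealRooted (chain (stp 1 0 m) m k)

/-! ## Linear bases -/

/-- `c x (x - 1) ⋯ (x - j₀ + 3) (x - j₀)` -/
noncomputable def lin (c : ℝ) (j₀ : ℕ) : ℝ[X] :=
  C c * (∏ i ∈ Finset.range (j₀ - 2), (X - C (i : ℝ))) * (X - C (j₀ : ℝ))

/-- PIECE LIN (may assume `StMom`, `StReal`, `StEval` for the last part) -/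
def StLin : Prop := stp 1 0 2 = lin 1 2 ∧ stp 1 0 3 = lin (1 / 2) 3 ∧
  ∀ (j : ℕ) (P ρ : ℝ[X]), 1 ≤ j → Rep j P ρ → Good ρ → ∃ c : ℝ, c ≠ 0 ∧ stp P j 3 = lin c (j + 3)

/-- PIECE C -/
def StC : Prop := ∀ (c : ℝ) (j₀ : ℕ), c ≠ 0 → 2 ≤ j₀ →
  (∀ k, k ≤ 1 → ∀ z : ℂ, aeval z (chain (lin c j₀) j₀ k) = 0 → ∃ a : ℤ, z = a) ∧
  ∀ k, 2 ≤ k → k ≤ 4 → ¬ RealRooted (chain (lin c j₀) j₀ k)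

/-! ## The main statement -/

/-- PIECE MAIN (assuming `StStep`, `StPure`, `StGood`, `StA`, `StB`, `StLin`, `StC`) -/
def StMain : Prop := ∀ L, Desc L → L ≠ [] → RealRooted (pp L) →
  (∀ z : ℂ, aeval z (pp L) = 0 → ∃ a : ℤ, z = a) ∧ InL L.toFinset

end Pool.Agent.R737.PK
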