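import Mathlib
import Pool.Agent.R737.PK.Stm

/-!
# Peak polynomials: PIECE Z, no zeros of the chain polynomials near the top
-/

set_option autoImplicit false

open Polynomial Filter Topology

namespace Pool.Agent.R737.PK.PZ

open Pool.Agent.R737.PK

theorem binX_eval (n : ℕ) (x : ℝ) :
    (binX n).eval x = (∏ i ∈ Finset.range n, (x - i)) / (n.factorial : ℝ) := by
  unfold binX
  rw [eval_mul, eval_C, eval_prod]
  simp only [eval_sub, eval_X, eval_C]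
  rw [div_eq_inv_mul]

theorem prod_reflect (j : ℕ) (z : ℝ) :
    ∏ i ∈ Finset.range (j + 1), ((j : ℝ) + z - i) = (∏ i ∈ Finset.range j, (z + i + 1)) * z := by
  rw [Finset.prod_range_succ, ← Finset.prod_range_reflect (fun i : ℕ => z + (i : ℝ) + 1) j]
  congr 1
  · refine Finset.prod_congr rfl fun i hi => ?_
    have hi' := Finset.mem_range.mp hi
    have : ((j - 1 - i : ℕ) : ℝ) = (j : ℝ) - 1 - i := by
      rw [Nat.cast_sub (by omega), Nat.cast_sub (by omega)]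
      simp
    rw [this]
    ring
  · ring

theorem binX_bin (j : ℕ) (z : ℝ) :
    (binX (j + 1)).eval ((j : ℝ) + z) = bin j z * z / (j + 1) := by
  rw [binX_eval, prod_reflect]
  unfold bin
  rw [Nat.factorial_succ]
  have h1 : (j.factorial : ℝ) ≠ 0 := by positivity
  have h2 : (j : ℝ) + 1 ≠ 0 := by positivity
  push_cast
  field_simp

theorem binX_two (n : ℕ) (x : ℝ) :
    (binX (n + 2)).eval x = (binX n).eval x * ((x - n) * (x - n - 1)) / ((n + 1) * (n + 2)) := by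
  rw [binX_eval, binX_eval, Finset.prod_range_succ, Finset.prod_range_succ, Nat.factorial_succ,
    Nat.factorial_succ]
  have h1 : (n.factorial : ℝ) ≠ 0 := by positivity
  have h2 : (n : ℝ) + 1 ≠ 0 := by positivity
  have h3 : (n : ℝ) + 2 ≠ 0 := by positivity
  push_cast
  field_simp
  ring

theorem bin_one (j : ℕ) : bin j 1 = j + 1 := by
  have h : ∏ i ∈ Finset.range j, ((1 : ℝ) + i + 1) = ((j + 1).factorial : ℝ) := by
    induction j with
    | zero => simp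
    | succ j ih =>
      rw [Finset.prod_range_succ, ih, Nat.factorial_succ (j + 1)]
      push_cast
      ring
  unfold bin
  rw [h, Nat.factorial_succ]
  have h1 : (j.factorial : ℝ) ≠ 0 := by positivity
  push_cast
  field_simp

theorem one_le_bin (j : ℕ) (z : ℝ) (hz : 0 ≤ z) : 1 ≤ bin j z := by
  unfold bin
  rw [one_le_div (by positivity)]
  induction j with
  | zero => simp
  | succ j ih =>
    rw [Finset.prod_range_succ, Nat.factorial_succ]
    push_cast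
    have h1 : (j : ℝ) + 1 ≤ z + j + 1 := by linarith
    have h2 : (0 : ℝ) ≤ j.factorial := by positivity
    calc ((j : ℝ) + 1) * j.factorial ≤ (z + j + 1) * ∏ i ∈ Finset.range j, (z + i + 1) := by
          refine mul_le_mul h1 ih h2 (by positivity)
      _ = _ := by ring

theorem chain_succ (P₀ : ℝ[X]) (j₀ l : ℕ) (x : ℝ) :
    (chain P₀ j₀ (l + 1)).eval x =
      bet P₀ j₀ l * (binX (j₀ + 2 * l + 1)).eval x - 2 * (chain P₀ j₀ l).eval x := by
  show (stp (chain P₀ j₀ l) (j₀ + 2 * l) 2).eval x = _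
  have : stp (chain P₀ j₀ l) (j₀ + 2 * l) 2 =
      C ((chain P₀ j₀ l).eval ((j₀ + 2 * l + 0 + 1 : ℕ) : ℝ)) * binX (j₀ + 2 * l + 0 + 1)
        - 2 * chain P₀ j₀ l - 0 := rfl
  rw [this]
  simp [bet]

/-- the bracket -/
noncomputable def Br (M K w0 w1 w2 z : ℝ) : ℕ → ℝ
  | 0 => M - 2 * K
  | 1 => M - 2 * K - 1 / 2 * (M * w0 * ((z - 1) * (z - 2)))
  | 2 => M - 2 * K - 1 / 2 * (M * w0 * ((z - 1) * (z - 2)))
      + 1 / 4 * (M * w0 * w1 * ((z - 1) * (z - 2) * (z - 3) * (z - 4)))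
  | _ => M - 2 * K - 1 / 2 * (M * w0 * ((z - 1) * (z - 2)))
      + 1 / 4 * (M * w0 * w1 * ((z - 1) * (z - 2) * (z - 3) * (z - 4)))
      - 1 / 8 * (M * w0 * w1 * w2 * ((z - 1) * (z - 2) * (z - 3) * (z - 4) * (z - 5) * (z - 6)))

theorem Br_hi {M K w0 w1 w2 z : ℝ} (hM : 0 < M) (h0 : 0 < w0) (h1 : 0 < w1)
    (h1' : w1 ≤ 5 / 24) (h2 : 0 < w2) (h2' : w2 ≤ 5 / 24) (hz : 1 ≤ z) (hz2 : z < 2)
    (hK : 2 * ((2 - z) * (w0 * M)) ≤ 2 * K - M) (q : ℕ) :
    Br M K w0 w1 w2 z q ≤ -((2 - z) * (w0 * M)) := by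
  obtain ⟨s, rfl⟩ : ∃ s, z = 2 - s := ⟨2 - z, by ring⟩
  have hs : 0 < s := by linarith
  have hs1 : s ≤ 1 := by linarith
  have hX : 0 < w0 * M := by positivity
  have e0 : 2 - (2 - s) = s := by ring
  rw [e0] at hK ⊢
  have hsX : 0 < s * (w0 * M) := by positivity
  -- t = 1 - s
  have b1 : -(1 / 2 * (M * w0 * ((2 - s - 1) * (2 - s - 2)))) = 1 / 2 * ((1 - s) * (s * (w0 * M))) := by
    ring
  have b1' : (1 - s) * (s * (w0 * M)) ≤ s * (w0 * M) := by nlinarith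
  have b2 : 1 / 4 * (M * w0 * w1 * ((2 - s - 1) * (2 - s - 2) * (2 - s - 3) * (2 - s - 4))) =
      -(1 / 4 * (w1 * ((1 + s) * (2 + s)) * ((1 - s) * (s * (w0 * M))))) := by ring
  have hY : 0 ≤ (1 - s) * (s * (w0 * M)) := mul_nonneg (by linarith) hsX.le
  have b3 : 1 / 8 * (M * w0 * w1 * w2 * ((2 - s - 1) * (2 - s - 2) * (2 - s - 3) * (2 - s - 4) *
      (2 - s - 5) * (2 - s - 6))) =
      -(1 / 8 * (w2 * ((3 + s) * (4 + s)) * (w1 * ((1 + s) * (2 + s)) * ((1 - s) * (s * (w0 * M)))))) := by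
    ring
  have c1 : w1 * ((1 + s) * (2 + s)) ≤ 5 / 4 := by
    have : (1 + s) * (2 + s) ≤ 6 := by nlinarith
    calc w1 * ((1 + s) * (2 + s)) ≤ 5 / 24 * 6 := mul_le_mul h1' this (by positivity) (by norm_num)
      _ = _ := by norm_num
  have c1' : 0 ≤ w1 * ((1 + s) * (2 + s)) := by positivity
  have c2 : w2 * ((3 + s) * (4 + s)) ≤ 25 / 6 := by
    have : (3 + s) * (4 + s) ≤ 20 := by nlinarith
    calc w2 * ((3 + s) * (4 + s)) ≤ 5 / 24 * 20 := mul_le_mul h2' this (by positivity) (by norm_num)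
      _ = _ := by norm_num
  have c2' : 0 ≤ w2 * ((3 + s) * (4 + s)) := by positivity
  set Y := (1 - s) * (s * (w0 * M)) with hYd
  set A := w1 * ((1 + s) * (2 + s)) with hA
  set D := w2 * ((3 + s) * (4 + s)) with hD
  have hAY : A * Y ≤ 5 / 4 * Y := mul_le_mul_of_nonneg_right c1 hY
  have hAY0 : 0 ≤ A * Y := mul_nonneg c1' hY
  have hDAY : D * (A * Y) ≤ 25 / 6 * (A * Y) := mul_le_mul_of_nonneg_right c2 hAY0
  have hDAY0 : 0 ≤ D * (A * Y) := mul_nonneg c2' hAY0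
  match q with
  | 0 =>
    simp only [Br]
    linarith
  | 1 =>
    simp only [Br]
    linarith
  | 2 =>
    simp only [Br]
    linarith
  | (n + 3) =>
    simp only [Br]
    linarith

theorem Br_lo {M K w0 w1 w2 z : ℝ} (hM : 0 < M) (h0 : 0 < w0) (h0' : w0 ≤ 5 / 24) (_h1 : 0 < w1)
    (h1' : w1 ≤ 5 / 24) (hz : 0 < z) (hz2 : z ≤ 1)
    (hK : M ≤ K) (q : ℕ) (hq : q ≤ 2) :
    Br M K w0 w1 w2 z q < 0 := by
  obtain ⟨s, rfl⟩ : ∃ s, z = 1 - s := ⟨1 - z, by ring⟩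
  have hs : 0 ≤ s := by linarith
  have hs1 : s < 1 := by linarith
  have b1 : 1 / 2 * (M * w0 * ((1 - s - 1) * (1 - s - 2))) = 1 / 2 * (w0 * (s * (1 + s)) * M) := by
    ring
  have b2 : 1 / 4 * (M * w0 * w1 * ((1 - s - 1) * (1 - s - 2) * (1 - s - 3) * (1 - s - 4))) =
      1 / 4 * (w1 * ((2 + s) * (3 + s)) * (w0 * (s * (1 + s)) * M)) := by ring
  have c1 : w1 * ((2 + s) * (3 + s)) ≤ 5 / 2 := by
    have : (2 + s) * (3 + s) ≤ 12 := by nlinarith
    calc w1 * ((2 + s) * (3 + s)) ≤ 5 / 24 * 12 := mul_le_mul h1' this (by positivity) (by norm_num)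
      _ = _ := by norm_num
  have c0 : w0 * (s * (1 + s)) ≤ 5 / 12 := by
    have : s * (1 + s) ≤ 2 := by nlinarith
    calc w0 * (s * (1 + s)) ≤ 5 / 24 * 2 := mul_le_mul h0' this (by positivity) (by norm_num)
      _ = _ := by norm_num
  have c0' : 0 ≤ w0 * (s * (1 + s)) := by positivity
  have c3 : w0 * (s * (1 + s)) * M ≤ 5 / 12 * M := mul_le_mul_of_nonneg_right c0 hM.le
  have c3' : 0 ≤ w0 * (s * (1 + s)) * M := mul_nonneg c0' hM.le
  set Y := w0 * (s * (1 + s)) * M with hY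
  have c4 : w1 * ((2 + s) * (3 + s)) * Y ≤ 5 / 2 * Y := mul_le_mul_of_nonneg_right c1 c3'
  match q, hq with
  | 0, _ =>
    simp only [Br]
    linarith
  | 1, _ =>
    simp only [Br]
    linarith
  | 2, _ =>
    simp only [Br]
    linarith

/-- everything at one position -/
theorem core (h1 : StVal) (h2 : StMom) (h3 : StReal) (h4 : StEval) (j₀ : ℕ) (P₀ ρ₀ : ℝ[X])
    (hj : 1 ≤ j₀) (hR : Rep j₀ P₀ ρ₀) (hG : Good ρ₀) (a : ℕ) :
    ∃ M w0 w1 w2 : ℝ, 0 < M ∧ 0 < w0 ∧ w0 ≤ 5 / 24 ∧ 0 < w1 ∧ w1 ≤ 5 / 24 ∧ 0 < w2 ∧ w2 ≤ 5 / 24 ∧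
      ∀ z : ℝ, 0 < z → z < 2 → ∃ K B : ℝ, 0 < B ∧ (1 ≤ z → 1 ≤ B) ∧ (z ≤ 1 → M ≤ K) ∧
        (1 ≤ z → 2 * ((2 - z) * (w0 * M)) ≤ 2 * K - M) ∧
        ∀ q : ℕ, q ≤ 3 → (chain P₀ j₀ (a + q + 1)).eval (((j₀ + 2 * a : ℕ) : ℝ) + z) =
          (-2) ^ q * (B * Br M K w0 w1 w2 z q) := by
  obtain ⟨v1, v2, v3, v4, -, -, -, -⟩ := h1 j₀ P₀ ρ₀ hj hR hG
  obtain ⟨r1, g1⟩ := v1 a
  obtain ⟨m1, m2, -, -, -, -⟩ := h2 _ g1
  obtain ⟨k1, k2, k3, k4⟩ := h3 _ g1
  set ρ := chainR ρ₀ j₀ a with hρ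
  have hM := m1 0
  obtain ⟨p0, p0'⟩ := v4 a
  obtain ⟨p1, p1'⟩ := v4 (a + 1)
  obtain ⟨p2, p2'⟩ := v4 (a + 2)
  refine ⟨M ρ 0, ww (chainR ρ₀ j₀ a), ww (chainR ρ₀ j₀ (a + 1)), ww (chainR ρ₀ j₀ (a + 2)), hM,
    p0, p0', p1, p1', p2, p2', fun z hz hz2 => ?_⟩
  set j := j₀ + 2 * a with hjd
  have hb1 := one_le_bin j z hz.le
  have hB : 0 < bin j z * z := by positivity
  refine ⟨K ρ z, bin j z * z, hB, fun h => by nlinarith, fun h => k2 z hz h, fun h => ?_, ?_⟩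
  · have h5 := k3 z h hz2.le
    have h6 : ww (chainR ρ₀ j₀ a) * M ρ 0 = M ρ 1 - M ρ 2 := by
      unfold ww
      rw [← hρ]
      field_simp
    rw [h6]
    linarith
  · -- the values
    have e0 : (chain P₀ j₀ a).eval ((j : ℝ) + z) = bin j z * z * K ρ z := by
      rw [h4 j _ _ r1 z hz]
      ring
    have eb : bet P₀ j₀ a = (j + 1) * M ρ 0 := by
      unfold bet
      have h5 := h4 j _ _ r1 1 one_pos
      have h6 := k4 0
      rw [bin_one] at h5
      have h7 : K ρ 1 = M ρ 0 := by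
        rw [← h6]
        norm_num
      rw [h7] at h5
      have h8 : ((j₀ + 2 * a + 1 : ℕ) : ℝ) = (j : ℝ) + 1 := by
        rw [hjd]
        push_cast
        ring
      rw [h8, h5]
      ring
    have hj1 : (j : ℝ) + 1 ≠ 0 := by positivity
    have t0 : bet P₀ j₀ a * (binX (j₀ + 2 * a + 1)).eval ((j : ℝ) + z) =
        bin j z * z * M ρ 0 := by
      rw [eb, ← hjd, binX_bin]
      field_simp
    have tn : ∀ n : ℕ, bet P₀ j₀ (a + (n + 1)) * (binX (j₀ + 2 * (a + (n + 1)) + 1)).eval ((j : ℝ) + z) =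
        bet P₀ j₀ (a + n) * (binX (j₀ + 2 * (a + n) + 1)).eval ((j : ℝ) + z) *
          (ww (chainR ρ₀ j₀ (a + n)) * ((z - 2 * n - 1) * (z - 2 * n - 2))) := by
      intro n
      have h5 := v3 (a + n)
      rw [show a + (n + 1) = (a + n) + 1 by ring, h5,
        show j₀ + 2 * (a + n + 1) + 1 = (j₀ + 2 * (a + n) + 1) + 2 by ring, binX_two]
      have h6 : (j : ℝ) + z - ((j₀ + 2 * (a + n) + 1 : ℕ) : ℝ) = z - 2 * n - 1 := by
        rw [hjd]
        push_cast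
        ring
      rw [h6, show z - 2 * (n : ℝ) - 1 - 1 = z - 2 * n - 2 by ring]
      push_cast
      have h7 : (j₀ : ℝ) + 2 * (a + n) + 1 + 1 ≠ 0 := by positivity
      have h8 : (j₀ : ℝ) + 2 * (a + n) + 1 + 2 ≠ 0 := by positivity
      rw [show (j₀ : ℝ) + 2 * (a + n) + 2 = (j₀ : ℝ) + 2 * (a + n) + 1 + 1 by ring,
        show (j₀ : ℝ) + 2 * (a + n) + 3 = (j₀ : ℝ) + 2 * (a + n) + 1 + 2 by ring]
      field_simp
    have t1 := tn 0
    have t2 := tn 1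
    have t3 := tn 2
    rw [add_zero] at t1
    norm_num only [Nat.cast_zero, Nat.cast_one, Nat.cast_ofNat, mul_zero, zero_add, sub_zero,
      Nat.reduceAdd] at t1 t2 t3
    have d1 := chain_succ P₀ j₀ a ((j : ℝ) + z)
    have d2 := chain_succ P₀ j₀ (a + 1) ((j : ℝ) + z)
    have d3 := chain_succ P₀ j₀ (a + 2) ((j : ℝ) + z)
    have d4 := chain_succ P₀ j₀ (a + 3) ((j : ℝ) + z)
    rw [e0, t0] at d1
    rw [t1, t0, d1] at d2
    rw [show a + 1 + 1 = a + 2 by ring] at d2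
    rw [t2, t1, t0, d2] at d3
    rw [show a + 2 + 1 = a + 3 by ring] at d3
    rw [t3, t2, t1, t0, d3] at d4
    intro q hq
    interval_cases q
    · rw [add_zero, d1]
      simp only [Br]
      ring
    · rw [show a + 1 + 1 = a + 2 by ring, d2]
      simp only [Br]
      ring
    · rw [show a + 2 + 1 = a + 3 by ring, d3]
      simp only [Br]
      ring
    · rw [d4]
      simp only [Br]
      ring

/-- a polynomial with a double zero cannot be larger than linear near it -/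
theorem deriv_ne {p : ℝ[X]} {t c : ℝ} (hc : 0 < c) (h0 : p.eval t = 0)
    (h : ∀ x, t - 1 ≤ x → x < t → c * (t - x) ≤ |p.eval x|) : (derivative p).eval t ≠ 0 := by
  intro hd
  have h1 := p.hasDerivAt t
  rw [hd, hasDerivAt_iff_isLittleO] at h1
  have h2 := h1.def (show 0 < c / 2 by positivity)
  have h3 : ∀ᶠ x in 𝓝[<] t, ‖p.eval x - p.eval t - (x - t) • (0 : ℝ)‖ ≤ c / 2 * ‖x - t‖ :=
    h2.filter_mono nhdsWithin_le_nhds
  have h4 : ∀ᶠ x in 𝓝[<] t, x ∈ Set.Ico (t - 1) t := by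
    filter_upwards [Ioo_mem_nhdsLT (show t - 1 < t by linarith)] with x hx
    exact ⟨hx.1.le, hx.2⟩
  obtain ⟨x, h5, h6⟩ := (h3.and h4).exists
  have h7 := h x h6.1 h6.2
  rw [h0, smul_zero, sub_zero, sub_zero, Real.norm_eq_abs, Real.norm_eq_abs,
    abs_of_neg (show x - t < 0 by linarith [h6.2])] at h5
  have h8 : 0 < c * (t - x) := mul_pos hc (by linarith [h6.2])
  linarith

end Pool.Agent.R737.PK.PZ

namespace Pool.Agent.R737.PK

open Pool.Agent.R737.PK.PZ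

theorem stZ (h1 : StVal) (h2 : StMom) (h3 : StReal) (h4 : StEval) : StZ := by
  intro j₀ P₀ ρ₀ hj hR hG k hk
  have hcore := core h1 h2 h3 h4 j₀ P₀ ρ₀ hj hR hG
  obtain ⟨v1, -, -, -, -, -, v7, -⟩ := h1 j₀ P₀ ρ₀ hj hR hG
  -- one unit interval, upper half
  have hiX : ∀ q : ℕ, q ≤ 3 → ∃ c : ℝ, 0 < c ∧ ∀ x : ℝ, (j₀ : ℝ) + 2 * k - 2 * q - 1 ≤ x →
      x < (j₀ : ℝ) + 2 * k - 2 * q → c * ((j₀ : ℝ) + 2 * k - 2 * q - x) ≤
        |(chain P₀ j₀ k).eval x| := by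
    intro q hq
    obtain ⟨a, rfl⟩ : ∃ a, k = a + q + 1 := ⟨k - q - 1, by omega⟩
    obtain ⟨M, w0, w1, w2, hM, p0, p0', p1, p1', p2, p2', hz⟩ := hcore a
    refine ⟨w0 * M, by positivity, fun x hx1 hx2 => ?_⟩
    push_cast at hx1 hx2 ⊢
    obtain ⟨K, B, hB, hB1, -, hK, hval⟩ := hz (x - (j₀ + 2 * a)) (by linarith) (by linarith)
    have hz1 : 1 ≤ x - (j₀ + 2 * a) := by linarith
    have hz2 : x - (j₀ + 2 * a) < 2 := by linarith
    have h5 := Br_hi hM p0 p1 p1' p2 p2' hz1 hz2 (hK hz1) q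
    have h6 := hval q hq
    rw [show ((j₀ + 2 * a : ℕ) : ℝ) + (x - (j₀ + 2 * a)) = x by push_cast; ring] at h6
    rw [h6, abs_mul, abs_pow, abs_neg, abs_mul, abs_of_pos hB]
    have h7 : 0 < (2 - (x - (j₀ + 2 * a))) * (w0 * M) := by
      have : 0 < 2 - (x - ((j₀ : ℝ) + 2 * a)) := by linarith
      positivity
    have h8 : Br M K w0 w1 w2 (x - (j₀ + 2 * a)) q < 0 := by linarith
    rw [abs_of_neg h8, abs_two]
    have h9 : (1 : ℝ) ≤ 2 ^ q := one_le_pow₀ (by norm_num)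
    have h10 := hB1 hz1
    calc w0 * M * ((j₀ : ℝ) + 2 * (a + q + 1) - 2 * q - x)
        = (2 - (x - (j₀ + 2 * a))) * (w0 * M) := by ring
      _ ≤ -Br M K w0 w1 w2 (x - (j₀ + 2 * a)) q := by linarith
      _ = 1 * (1 * -Br M K w0 w1 w2 (x - (j₀ + 2 * a)) q) := by ring
      _ ≤ 2 ^ q * (B * -Br M K w0 w1 w2 (x - (j₀ + 2 * a)) q) := by
          have h11 : 0 ≤ -Br M K w0 w1 w2 (x - (j₀ + 2 * a)) q := by linarith
          gcongr
  -- lower half
  have loX : ∀ q : ℕ, q ≤ 2 → ∀ x : ℝ, (j₀ : ℝ) + 2 * k - 2 * q - 2 < x →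
      x ≤ (j₀ : ℝ) + 2 * k - 2 * q - 1 → (chain P₀ j₀ k).eval x ≠ 0 := by
    intro q hq x hx1 hx2
    obtain ⟨a, rfl⟩ : ∃ a, k = a + q + 1 := ⟨k - q - 1, by omega⟩
    obtain ⟨M, w0, w1, w2, hM, p0, p0', p1, p1', p2, p2', hz⟩ := hcore a
    push_cast at hx1 hx2 ⊢
    obtain ⟨K, B, hB, -, hK, -, hval⟩ := hz (x - (j₀ + 2 * a)) (by linarith) (by linarith)
    have hz1 : x - (j₀ + 2 * a) ≤ 1 := by linarith
    have hz0 : 0 < x - (j₀ + 2 * a) := by linarith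
    have h5 := Br_lo (w2 := w2) hM p0 p0' p1 p1' hz0 hz1 (hK hz1) q hq
    have h6 := hval q (by omega)
    rw [show ((j₀ + 2 * a : ℕ) : ℝ) + (x - (j₀ + 2 * a)) = x by push_cast; ring] at h6
    rw [h6]
    refine mul_ne_zero (pow_ne_zero _ (by norm_num)) (mul_ne_zero hB.ne' h5.ne)
  constructor
  · intro x hx h0
    by_contra hcon
    push Not at hcon
    -- upper halves excluded
    have hA : ∀ q : ℕ, q ≤ 3 → ¬ ((j₀ : ℝ) + 2 * k - 2 * q - 1 ≤ x ∧ x < (j₀ : ℝ) + 2 * k - 2 * q) := by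
      rintro q hq ⟨ha, hb⟩
      obtain ⟨c, hc, hcx⟩ := hiX q hq
      have h5 := hcx x ha hb
      rw [h0, abs_zero] at h5
      have h6 : 0 < c * ((j₀ : ℝ) + 2 * k - 2 * q - x) := mul_pos hc (by linarith)
      linarith
    have hBq : ∀ q : ℕ, q ≤ 2 → ¬ ((j₀ : ℝ) + 2 * k - 2 * q - 2 < x ∧ x ≤ (j₀ : ℝ) + 2 * k - 2 * q - 1) := by
      rintro q hq ⟨ha, hb⟩
      exact loX q hq x ha hb h0
    have hC : ¬ ((j₀ : ℝ) + 2 * k < x) := by
      intro hlt
      obtain ⟨r1, g1⟩ := v1 k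
      obtain ⟨k1, -, -, -⟩ := h3 _ g1
      have h5 := h4 _ _ _ r1 (x - (j₀ + 2 * k)) (by linarith)
      rw [show ((j₀ + 2 * k : ℕ) : ℝ) + (x - (j₀ + 2 * k)) = x by push_cast; ring, h0] at h5
      have h6 := k1 (x - (j₀ + 2 * k)) (by linarith)
      have h7 := one_le_bin (j₀ + 2 * k) (x - (j₀ + 2 * k)) (by linarith)
      have h8 : 0 < bin (j₀ + 2 * k) (x - (j₀ + 2 * k)) *
          ((x - (j₀ + 2 * k)) * K (chainR ρ₀ j₀ k) (x - (j₀ + 2 * k))) := by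
        refine mul_pos (by linarith) (mul_pos (by linarith) h6)
      linarith
    have n0 := hcon 0 (by norm_num)
    have n1 := hcon 1 (by norm_num)
    have n2 := hcon 2 (by norm_num)
    have n3 := hcon 3 (by norm_num)
    have a0 := hA 0 (by norm_num)
    have a1 := hA 1 (by norm_num)
    have a2 := hA 2 (by norm_num)
    have a3 := hA 3 (by norm_num)
    have b0 := hBq 0 (by norm_num)
    have b1 := hBq 1 (by norm_num)
    have b2 := hBq 2 (by norm_num)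
    push_cast at n0 n1 n2 n3 a0 a1 a2 a3 b0 b1 b2
    push Not at hC
    rcases lt_or_eq_of_le hC with h | h
    swap
    · exact n0 (by linarith)
    have c0 : x < (j₀ : ℝ) + 2 * k - 1 := by
      by_contra hc
      exact a0 ⟨by linarith, by linarith⟩
    have c1 : x ≤ (j₀ : ℝ) + 2 * k - 2 := by
      by_contra hc
      exact b0 ⟨by linarith, by linarith⟩
    rcases lt_or_eq_of_le c1 with c1 | c1
    swap
    · exact n1 (by linarith)
    have c2 : x < (j₀ : ℝ) + 2 * k - 3 := by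
      by_contra hc
      exact a1 ⟨by linarith, by linarith⟩
    have c3 : x ≤ (j₀ : ℝ) + 2 * k - 4 := by
      by_contra hc
      exact b1 ⟨by linarith, by linarith⟩
    rcases lt_or_eq_of_le c3 with c3 | c3
    swap
    · exact n2 (by linarith)
    have c4 : x < (j₀ : ℝ) + 2 * k - 5 := by
      by_contra hc
      exact a2 ⟨by linarith, by linarith⟩
    have c5 : x ≤ (j₀ : ℝ) + 2 * k - 6 := by
      by_contra hc
      exact b2 ⟨by linarith, by linarith⟩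
    rcases lt_or_eq_of_le c5 with c5 | c5
    swap
    · exact n3 (by linarith)
    exact a3 ⟨by linarith, by linarith⟩
  · intro i hi
    obtain ⟨c, hc, hcx⟩ := hiX i hi
    refine deriv_ne hc ?_ hcx
    have h5 := v7 k (k - i) (by omega)
    rw [Nat.cast_sub (by omega)] at h5
    rw [← h5]
    congr 1
    ring

end Pool.Agent.R737.PK
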